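import Mathlib.GroupTheory.GroupAction.Quotient
import Mathlib.GroupTheory.SemidirectProduct
import Mathlib.Algebra.Order.BigOperators.Ring.Finset
import Mathlib.Analysis.SpecialFunctions.Pow.Real
import Mathlib.Algebra.Group.End
import Mathlib.SetTheory.Cardinal.Finite

/-! Twisted conjugacy in a finite group. -/

set_option autoImplicit false

namespace Pool.Agent.K7.H53.FM

open scoped BigOperators

section
variable {G : Type*} [Group G] [Fintype G]

open Classical in
/-- the number of elements mapping `g` to `g'` by twisted conjugation -/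
noncomputable def nn (τ : MulAut G) (g g' : G) : ℝ := ∑ h : G, if h * g * (τ h)⁻¹ = g' then 1 else 0

theorem gcard_pos : (0 : ℝ) < Fintype.card G := by
  exact_mod_cast Fintype.card_pos

theorem nn_nonneg (τ : MulAut G) (g g' : G) : 0 ≤ nn τ g g' := by
  unfold nn
  exact Finset.sum_nonneg fun h _ => by split_ifs <;> norm_num

theorem nn_le (τ : MulAut G) (g g' : G) : nn τ g g' ≤ Fintype.card G := by
  unfold nn
  refine (Finset.sum_le_card_nsmul _ _ 1 fun h _ => ?_).trans ?_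
  · split_ifs <;> norm_num
  · rw [nsmul_eq_mul, mul_one, Finset.card_univ]

/-- sum against a function -/
theorem sum_nn (τ : MulAut G) (g : G) (F : G → ℝ) :
    ∑ g', F g' * nn τ g g' = ∑ h, F (h * g * (τ h)⁻¹) := by
  classical
  unfold nn
  simp only [Finset.mul_sum]
  rw [Finset.sum_comm]
  refine Finset.sum_congr rfl fun h _ => ?_
  simp only [mul_ite, mul_one, mul_zero]
  rw [Finset.sum_ite_eq, if_pos (Finset.mem_univ _)]

theorem sum_nn_class (τ : MulAut G) (g : G) {F : G → ℝ} (hF : ∀ g h, F (h * g * (τ h)⁻¹) = F g) :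
    ∑ g', F g' * nn τ g g' = Fintype.card G * F g := by
  rw [sum_nn, Finset.sum_congr rfl fun h _ => hF g h, Finset.sum_const, Finset.card_univ,
    nsmul_eq_mul]

theorem sum_nn_one (τ : MulAut G) (g : G) : ∑ g', nn τ g g' = Fintype.card G := by
  have h := sum_nn_class τ g (F := fun _ => 1) fun _ _ => rfl
  simp only [one_mul, mul_one] at h
  exact h

theorem nn_class (τ : MulAut G) (g g' k : G) : nn τ (k * g * (τ k)⁻¹) g' = nn τ g g' := by
  classical
  unfold nn
  rw [← Equiv.sum_comp (Equiv.mulRight k) fun h => if h * g * (τ h)⁻¹ = g' then (1 : ℝ) else 0]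
  refine Finset.sum_congr rfl fun h _ => ?_
  rw [Equiv.coe_mulRight]
  have e : h * (k * g * (τ k)⁻¹) * (τ h)⁻¹ = h * k * g * (τ (h * k))⁻¹ := by
    rw [map_mul, mul_inv_rev]
    group
  rw [e]

theorem nn_class' (τ : MulAut G) (g g' k : G) : nn τ g (k * g' * (τ k)⁻¹) = nn τ g g' := by
  classical
  unfold nn
  rw [← Equiv.sum_comp (Equiv.mulLeft k) fun h =>
    if h * g * (τ h)⁻¹ = k * g' * (τ k)⁻¹ then (1 : ℝ) else 0]
  refine Finset.sum_congr rfl fun h _ => ?_
  rw [Equiv.coe_mulLeft]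
  have e : k * h * g * (τ (k * h))⁻¹ = k * (h * g * (τ h)⁻¹) * (τ k)⁻¹ := by
    rw [map_mul, mul_inv_rev]
    group
  have e2 : (k * h * g * (τ (k * h))⁻¹ = k * g' * (τ k)⁻¹) ↔ h * g * (τ h)⁻¹ = g' := by
    rw [e, mul_left_inj, mul_right_inj]
  simp only [e2]

/-- products -/
theorem sum_nn_nn (τ : MulAut G) (g k : G) :
    ∑ g', nn τ g g' * nn τ k g' = Fintype.card G * nn τ g k := by
  exact sum_nn_class τ k (F := fun g' => nn τ g g') fun g' h => nn_class' τ g g' h

/-- **The inequality.** -/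
theorem bes {κ : Type*} (S : Finset κ) (τ : MulAut G) (f : G → ℝ)
    (hf : ∀ g h, f (h * g * (τ h)⁻¹) = f g) {s : ℝ} (hs : ∀ g, |f g| ≤ s) (a : κ → ℝ) (c : κ → G) :
    (∑ k ∈ S, a k * (f (c k) - (Fintype.card G : ℝ)⁻¹ * ∑ g, f g)) ^ 2 ≤
      s ^ 2 * ∑ k ∈ S, ∑ l ∈ S, a k * a l * (nn τ (c k) (c l) - 1) := by
  classical
  set n : ℝ := (Fintype.card G : ℝ) with hn
  have hn0 : 0 < n := gcard_pos
  set Z : G → ℝ := fun g' => ∑ k ∈ S, a k * (nn τ (c k) g' - 1) with hZ
  have e1 : ∑ k ∈ S, a k * (f (c k) - n⁻¹ * ∑ g, f g) = n⁻¹ * ∑ g', f g' * Z g' := by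
    rw [hZ]
    simp only [Finset.mul_sum]
    rw [Finset.sum_comm]
    refine Finset.sum_congr rfl fun k _ => ?_
    have e2 : ∑ g', n⁻¹ * (f g' * (a k * (nn τ (c k) g' - 1))) =
        n⁻¹ * a k * (∑ g', f g' * nn τ (c k) g' - ∑ g', f g') := by
      rw [← Finset.sum_sub_distrib, Finset.mul_sum]
      exact Finset.sum_congr rfl fun g' _ => by ring
    rw [e2, sum_nn_class τ _ hf, ← hn, ← Finset.mul_sum]
    field_simp
  have e3 : ∑ g', Z g' ^ 2 = n * ∑ k ∈ S, ∑ l ∈ S, a k * a l * (nn τ (c k) (c l) - 1) := by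
    have e4 : ∀ g', Z g' ^ 2 = ∑ k ∈ S, ∑ l ∈ S,
        a k * a l * ((nn τ (c k) g' - 1) * (nn τ (c l) g' - 1)) := by
      intro g'
      rw [hZ, sq, Finset.sum_mul_sum]
      exact Finset.sum_congr rfl fun k _ => Finset.sum_congr rfl fun l _ => by ring
    rw [Finset.sum_congr rfl fun g' _ => e4 g', Finset.sum_comm, Finset.mul_sum]
    refine Finset.sum_congr rfl fun k _ => ?_
    rw [Finset.sum_comm, Finset.mul_sum]
    refine Finset.sum_congr rfl fun l _ => ?_
    rw [← Finset.mul_sum]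
    have e5 : ∑ g', (nn τ (c k) g' - 1) * (nn τ (c l) g' - 1) =
        n * (nn τ (c k) (c l) - 1) := by
      have e6 : ∀ g', (nn τ (c k) g' - 1) * (nn τ (c l) g' - 1) =
          nn τ (c k) g' * nn τ (c l) g' - nn τ (c k) g' - nn τ (c l) g' + 1 := fun g' => by ring
      rw [Finset.sum_congr rfl fun g' _ => e6 g', Finset.sum_add_distrib,
        Finset.sum_sub_distrib, Finset.sum_sub_distrib, sum_nn_nn, sum_nn_one, sum_nn_one,
        Finset.sum_const, Finset.card_univ, nsmul_eq_mul, mul_one]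
      ring
    rw [e5]
    ring
  rw [e1]
  have h1 : (∑ g', f g' * Z g') ^ 2 ≤ (∑ g', f g' ^ 2) * ∑ g', Z g' ^ 2 :=
    Finset.sum_mul_sq_le_sq_mul_sq _ _ _
  have h2 : ∑ g', f g' ^ 2 ≤ n * s ^ 2 := by
    refine (Finset.sum_le_card_nsmul _ _ (s ^ 2) fun g _ => ?_).trans ?_
    · rw [← sq_abs]
      exact pow_le_pow_left₀ (abs_nonneg _) (hs g) 2
    · rw [nsmul_eq_mul, Finset.card_univ]
  have h3 : 0 ≤ ∑ g', Z g' ^ 2 := Finset.sum_nonneg fun _ _ => sq_nonneg _
  calc (n⁻¹ * ∑ g', f g' * Z g') ^ 2 = n⁻¹ ^ 2 * (∑ g', f g' * Z g') ^ 2 := by ring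
    _ ≤ n⁻¹ ^ 2 * ((n * s ^ 2) * ∑ g', Z g' ^ 2) :=
        mul_le_mul_of_nonneg_left (h1.trans (mul_le_mul_of_nonneg_right h2 h3)) (by positivity)
    _ = s ^ 2 * ∑ k ∈ S, ∑ l ∈ S, a k * a l * (nn τ (c k) (c l) - 1) := by
        rw [e3]
        field_simp

/-- the quadratic form is nonnegative -/
theorem form_nonneg {κ : Type*} (S : Finset κ) (τ : MulAut G) (a : κ → ℝ) (c : κ → G) :
    0 ≤ ∑ k ∈ S, ∑ l ∈ S, a k * a l * (nn τ (c k) (c l) - 1) := by
  have h := bes S τ (fun _ => (1 : ℝ)) (fun _ _ => rfl) (s := 1) (fun _ => by simp) a c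
  rw [one_pow, one_mul] at h
  exact (sq_nonneg _).trans h

/-- The classes. -/
noncomputable def cls (Θ : Subgroup (MulAut G)) : ℕ :=
  Nat.card (Quot fun x y : G => ∃ g : G, ∃ τ ∈ Θ, y = g * τ x * g⁻¹)

/-- **The number of the classes.** -/
theorem burnside_cls (Θ : Subgroup (MulAut G)) [Fintype Θ] :
    ∑ τ : Θ, ∑ g : G, nn (τ : MulAut G) g g =
      (cls Θ : ℝ) * (Fintype.card G * Fintype.card Θ) := by
  classical
  set θ : Θ →* MulAut G := Θ.subtype with hθ
  let act : MulAction (G ⋊[θ] Θ) G :=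
    { smul := fun x h => x.left * (x.right : MulAut G) h * x.left⁻¹
      one_smul := fun h => by
        show (1 : G ⋊[θ] Θ).left * (((1 : G ⋊[θ] Θ).right : Θ) : MulAut G) h *
          ((1 : G ⋊[θ] Θ).left)⁻¹ = h
        simp
      mul_smul := fun x y h => by
        show (x * y).left * (((x * y).right : Θ) : MulAut G) h * ((x * y).left)⁻¹ =
          x.left * (x.right : MulAut G) (y.left * (y.right : MulAut G) h * y.left⁻¹) * x.left⁻¹
        have e0 : (θ x.right) y.left = (x.right : MulAut G) y.left := rfl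
        rw [SemidirectProduct.mul_left, SemidirectProduct.mul_right, Subgroup.coe_mul,
          MulAut.mul_apply, map_mul, map_mul, map_inv, e0]
        group }
  have hsm : ∀ (x : G ⋊[θ] Θ) (h : G), x • h = x.left * (x.right : MulAut G) h * x.left⁻¹ :=
    fun _ _ => rfl
  let eq : (G ⋊[θ] Θ) ≃ G × Θ := SemidirectProduct.equivProd
  let ft : Fintype (G ⋊[θ] Θ) := Fintype.ofEquiv _ eq.symm
  have hcard : Fintype.card (G ⋊[θ] Θ) = Fintype.card G * Fintype.card Θ := by
    rw [Fintype.card_congr eq, Fintype.card_prod]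
  let fq : Fintype (Quotient (MulAction.orbitRel (G ⋊[θ] Θ) G)) := Fintype.ofFinite _
  have hb := MulAction.sum_card_fixedBy_eq_card_orbits_mul_card_group (G ⋊[θ] Θ) G
  have hcls : Fintype.card (Quotient (MulAction.orbitRel (G ⋊[θ] Θ) G)) = cls Θ := by
    unfold cls
    rw [← Nat.card_eq_fintype_card]
    refine Nat.card_congr (Quot.congrRight fun x y => ?_)
    constructor
    · intro h
      have h' : y ∈ MulAction.orbit (G ⋊[θ] Θ) x := by
        have := (MulAction.orbitRel (G ⋊[θ] Θ) G).symm h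
        exact this
      obtain ⟨m, hm⟩ := h'
      exact ⟨m.left, m.right, m.right.2, hm.symm⟩
    · rintro ⟨g, τ, hτ, rfl⟩
      have h' : g * τ x * g⁻¹ ∈ MulAction.orbit (G ⋊[θ] Θ) x := ⟨⟨g, ⟨τ, hτ⟩⟩, rfl⟩
      exact (MulAction.orbitRel (G ⋊[θ] Θ) G).symm h'
  rw [hcls, hcard] at hb
  have hsum : (∑ x : G ⋊[θ] Θ, (Fintype.card (MulAction.fixedBy G x) : ℝ)) =
      ∑ τ : Θ, ∑ g : G, nn (τ : MulAut G) g g := by
    rw [← Equiv.sum_comp eq.symm, Fintype.sum_prod_type_right]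
    refine Finset.sum_congr rfl fun τ _ => Finset.sum_congr rfl fun g _ => ?_
    unfold nn
    have e1 : Fintype.card (MulAction.fixedBy G (eq.symm (g, τ))) =
        (Finset.univ.filter fun h : G => h * g * ((τ : MulAut G) h)⁻¹ = g).card := by
      rw [← Fintype.card_subtype]
      refine Fintype.card_congr (Equiv.subtypeEquivRight fun h => ?_)
      rw [MulAction.mem_fixedBy, hsm]
      show g * (τ : MulAut G) h * g⁻¹ = h ↔ _
      rw [mul_inv_eq_iff_eq_mul, mul_inv_eq_iff_eq_mul]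
      exact eq_comm
    rw [e1, Finset.sum_boole]
  rw [← hsum]
  exact_mod_cast hb

end

end Pool.Agent.K7.H53.FM
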