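import Pool.Agent.K7.H53.FM.Tr
import Pool.Agent.K7.H53.FM.Grp
import Pool.Agent.Y149.WR.Size

/-! Mean values over the primes. -/

set_option autoImplicit false

namespace Pool.Agent.K7.H53.FM

open Complex Filter Topology NumberField IsDedekindDomain
open Pool.Agent.W540.BE (EP nm exists_isFrob NormSys normSys)
open Pool.Agent.W353.L1 Pool.Agent.W401.Cheb
open Pool.Agent.H341R2 (lam lam_tendsto)
open Pool.Agent.W353.NF (avR_ker)
open Pool.Agent.W353.TD (sum_char)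

section
variable {K : Type} [Field K] [NumberField K]

/-- Chebotarev's theorem for a homomorphism with open kernel -/
theorem cheb_range {H : Type*} [Group H] (Φ : GK K →* H)
    (hΦ : IsOpen (Φ.ker : Set (GK K))) (F : H → ℝ)
    (hF : ∀ r x : GK K, F (Φ r * Φ x * (Φ r)⁻¹) = F (Φ x))
    (σ : HeightOneSpectrum (𝓞 K) → GK K) (hσ : ∀ v, IsFrob v (σ v)) :
    (∃ B : ℝ, ∀ g, |F (Φ g)| ≤ B) ∧
    Tendsto (fun ε : ℝ => (EP (nm K) ε fun v => F (Φ (σ v))) / lam ε) (𝓝[>] 0)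
      (𝓝 ((Nat.card Φ.range : ℝ)⁻¹ * ∑ᶠ h : Φ.range, F h)) := by
  classical
  have hfin : Finite (GK K ⧸ Φ.ker) := Subgroup.quotient_finite_of_isOpen _ hΦ
  have hout : ∀ g : GK K, Φ (QuotientGroup.mk g : GK K ⧸ Φ.ker).out = Φ g := by
    intro g
    have h1 : (QuotientGroup.mk (QuotientGroup.mk g : GK K ⧸ Φ.ker).out :
        GK K ⧸ Φ.ker) = QuotientGroup.mk g := QuotientGroup.out_eq' _
    rw [QuotientGroup.eq, MonoidHom.mem_ker, map_mul, map_inv] at h1
    exact (inv_mul_eq_one.1 h1)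
  set ψ : GK K ⧸ Φ.ker → ℝ := fun q => F (Φ q.out) with hψ
  have hψm : ∀ g : GK K, ψ (QuotientGroup.mk g) = F (Φ g) := by
    intro g
    rw [hψ]
    simp only
    rw [hout]
  constructor
  · let _ : Fintype (GK K ⧸ Φ.ker) := Fintype.ofFinite _
    refine ⟨∑ q, |ψ q|, fun g => ?_⟩
    rw [← hψm]
    exact Finset.single_le_sum (f := fun q => |ψ q|) (fun q _ => abs_nonneg _) (Finset.mem_univ _)
  · have h1 := cheb_edge Φ.ker hΦ (fun q => ((ψ q : ℝ) : ℂ)) (by
        intro a g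
        congr 1
        obtain ⟨a, rfl⟩ := QuotientGroup.mk_surjective a
        obtain ⟨g, rfl⟩ := QuotientGroup.mk_surjective g
        rw [← QuotientGroup.mk_inv, ← QuotientGroup.mk_mul, ← QuotientGroup.mk_mul, hψm, hψm,
          map_mul, map_mul, map_inv, hF]) _ (avC_ofReal _ ψ) σ hσ 0
    rw [if_pos rfl] at h1
    have h2 : avR Φ.ker ψ = (Nat.card Φ.range : ℝ)⁻¹ * ∑ᶠ h : Φ.range, F h := avR_ker Φ F
    rw [h2] at h1
    refine h1.congr fun ε => ?_
    congr 2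
    funext v
    have h3 : ((nm K v : ℕ) : ℂ) ^ (-(((0 : ℝ) : ℂ) * I)) = 1 := by
      rw [Complex.ofReal_zero, zero_mul, neg_zero, Complex.cpow_zero]
    rw [h3, mul_one, Complex.ofReal_re, hψm]

/-- mean values over the image -/
theorem mean_range {H : Type*} [Group H] (Φ : GK K →* H) (F : H → ℝ) {T : Type*} [Fintype T]
    (e : T → H) (he : Function.Injective e) (hr : ∀ h, h ∈ Φ.range ↔ ∃ t, e t = h) :
    (Nat.card Φ.range : ℝ)⁻¹ * ∑ᶠ h : Φ.range, F h = (Fintype.card T : ℝ)⁻¹ * ∑ t, F (e t) := by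
  have hbij : Function.Bijective (fun t : T => (⟨e t, (hr _).2 ⟨t, rfl⟩⟩ : Φ.range)) := by
    constructor
    · intro t t' h
      exact he (congrArg Subtype.val h)
    · rintro ⟨h, hh⟩
      obtain ⟨t, ht⟩ := (hr h).1 hh
      exact ⟨t, Subtype.ext ht⟩
  rw [← Nat.card_eq_of_bijective _ hbij, Nat.card_eq_fintype_card]
  congr 1
  rw [← finsum_eq_sum_of_fintype]
  exact (finsum_eq_of_bijective _ hbij fun t => rfl).symm

end

section
variable {K : Type} [Field K] [NumberField K] {l : ℕ} {G : Type} [Group G]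
  {𝒜 : LinearAction K l G}

/-- the homomorphism to the holomorph -/
noncomputable def hol (c : Cocycle 𝒜) : GK K →* G ⋊[MonoidHom.id (MulAut G)] MulAut G where
  toFun σ := ⟨c.c σ, 𝒜.θ σ⟩
  map_one' := SemidirectProduct.ext c.one (map_one _)
  map_mul' σ τ := SemidirectProduct.ext (c.mul σ τ) (map_mul _ _ _)

/-- the section -/
noncomputable def sec (c : Cocycle 𝒜) : GK K →* G ⋊[𝒜.θ] Gal(AlgebraicClosure K/K) where
  toFun σ := ⟨c.c σ, σ⟩
  map_one' := SemidirectProduct.ext c.one rfl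
  map_mul' σ τ := SemidirectProduct.ext (c.mul σ τ) rfl

theorem hol_open (c : Cocycle 𝒜) : IsOpen ((hol c).ker : Set (GK K)) := by
  obtain ⟨U, hU, hU1⟩ := 𝒜.cont
  obtain ⟨W, hW, hW1⟩ := c.cont
  refine Subgroup.isOpen_mono (H₁ := U ⊓ W) (fun u hu => ?_) (by
    rw [Subgroup.coe_inf]
    exact hU.inter hW)
  rw [MonoidHom.mem_ker]
  exact SemidirectProduct.ext (hW1 u hu.2) (hU1 u hu.1)

theorem nn_aut [Fintype G] (ω τ : MulAut G) (g g' : G) :
    nn (ω * τ * ω⁻¹) (ω g) (ω g') = nn τ g g' := by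
  classical
  unfold nn
  rw [← Equiv.sum_comp ω.toEquiv fun h =>
    if h * ω g * ((ω * τ * ω⁻¹) h)⁻¹ = ω g' then (1 : ℝ) else 0]
  refine Finset.sum_congr rfl fun h _ => ?_
  have e : (ω * τ * ω⁻¹) (ω h) = ω (τ h) := by
    rw [MulAut.mul_apply, MulAut.mul_apply, MulAut.inv_apply_self]
  have e2 : ω h * ω g * ((ω * τ * ω⁻¹) (ω h))⁻¹ = ω (h * g * (τ h)⁻¹) := by
    rw [e, map_mul, map_mul, map_inv]
  have e3 : (ω.toEquiv h * ω g * ((ω * τ * ω⁻¹) (ω.toEquiv h))⁻¹ = ω g') ↔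
      h * g * (τ h)⁻¹ = g' := by
    show (ω h * ω g * ((ω * τ * ω⁻¹) (ω h))⁻¹ = ω g') ↔ _
    rw [e2]
    exact ω.injective.eq_iff
  simp only [e3]

/-- the kernel function -/
noncomputable def FF [Fintype G]
    (x : (G ⋊[MonoidHom.id (MulAut G)] MulAut G) × (G ⋊[MonoidHom.id (MulAut G)] MulAut G)) : ℝ :=
  nn x.1.right x.1.left x.2.left - 1

theorem FF_conj [Fintype G] (c c' : Cocycle 𝒜) (r x : GK K) :
    FF (((hol c).prod (hol c')) r * ((hol c).prod (hol c')) x * (((hol c).prod (hol c')) r)⁻¹) =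
      FF (((hol c).prod (hol c')) x) := by
  unfold FF
  congr 1
  set ω := 𝒜.θ r with hω
  set τ := 𝒜.θ x with hτ
  have e1 : ∀ c : Cocycle 𝒜, (hol c r * hol c x * (hol c r)⁻¹).left =
      c.c r * ω (c.c x) * ((ω * τ * ω⁻¹) (c.c r))⁻¹ := by
    intro c
    rw [SemidirectProduct.mul_left, SemidirectProduct.mul_left, SemidirectProduct.inv_left]
    simp only [MonoidHom.id_apply, SemidirectProduct.mul_right]
    have a1 : (hol c r).left = c.c r := rfl
    have a2 : (hol c r).right = ω := rfl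
    have a3 : (hol c x).left = c.c x := rfl
    have a4 : (hol c x).right = τ := rfl
    rw [a1, a2, a3, a4]
    congr 1
    rw [map_inv, MulAut.mul_apply, MulAut.mul_apply, MulAut.mul_apply, map_inv, map_inv]
  have e2 : ∀ c : Cocycle 𝒜, (hol c r * hol c x * (hol c r)⁻¹).right = ω * τ * ω⁻¹ :=
    fun c => rfl
  show nn (hol c r * hol c x * (hol c r)⁻¹).right (hol c r * hol c x * (hol c r)⁻¹).left
    (hol c' r * hol c' x * (hol c' r)⁻¹).left = nn τ (c.c x) (c'.c x)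
  rw [e1, e1, e2, nn_class, nn_class', nn_aut]

theorem prod_open (c c' : Cocycle 𝒜) : IsOpen (((hol c).prod (hol c')).ker : Set (GK K)) := by
  have hker : ((hol c).prod (hol c')).ker = (hol c).ker ⊓ (hol c').ker := by
    ext g
    simp [MonoidHom.mem_ker, Prod.ext_iff]
  rw [hker, Subgroup.coe_inf]
  exact (hol_open c).inter (hol_open c')

/-- The cocycle is surjective over the field where the group is constant. -/
def Surj (c : Cocycle 𝒜) : Prop := ∀ g : G, ∃ σ ∈ 𝒜.ker, c.c σ = g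

/-- the function for two cocycles -/
noncomputable def PP [Fintype G] (c c' : Cocycle 𝒜) (σ : GK K) : ℝ :=
  nn (𝒜.θ σ) (c.c σ) (c'.c σ) - 1

/-- **mean value for independent cocycles** -/
theorem mean_indep [Fintype G] {c c' : Cocycle 𝒜} (h : Independent c c')
    (σ : HeightOneSpectrum (𝓞 K) → GK K) (hσ : ∀ v, IsFrob v (σ v)) :
    Tendsto (fun ε : ℝ => (EP (nm K) ε fun v => PP c c' (σ v)) / lam ε) (𝓝[>] 0) (𝓝 0) := by
  classical
  have hfa : Finite (MulAut G) := by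
    have : Finite (Equiv.Perm G) := inferInstance
    exact Finite.of_injective (MulAut.toPerm G) (fun a b hab => MulEquiv.ext fun x =>
      congrArg (fun f : Equiv.Perm G => f x) hab)
  let _ : Fintype (𝒜.θ.range) := Fintype.ofFinite _
  have h1 := (cheb_range ((hol c).prod (hol c')) (prod_open c c') FF (FF_conj c c') σ hσ).2
  refine h1.trans (le_of_eq ?_)
  congr 1
  rw [mean_range _ _ (T := (G × G) × 𝒜.θ.range) (fun t => (⟨t.1.1, t.2⟩, ⟨t.1.2, t.2⟩)) ?_ ?_]
  · rw [Fintype.sum_prod_type_right]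
    have e1 : ∀ τ : 𝒜.θ.range, ∑ p : G × G, FF ((⟨p.1, τ⟩, ⟨p.2, τ⟩) :
        (G ⋊[MonoidHom.id (MulAut G)] MulAut G) × (G ⋊[MonoidHom.id (MulAut G)] MulAut G)) = 0 := by
      intro τ
      rw [Fintype.sum_prod_type]
      refine Finset.sum_eq_zero fun g _ => ?_
      unfold FF
      simp only
      rw [Finset.sum_sub_distrib, sum_nn_one, Finset.sum_const, Finset.card_univ, nsmul_eq_mul,
        mul_one, sub_self]
    rw [Finset.sum_eq_zero fun τ _ => e1 τ, mul_zero]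
  · rintro ⟨⟨a, b⟩, τ⟩ ⟨⟨a', b'⟩, τ'⟩ hab
    simp only [Prod.mk.injEq, SemidirectProduct.mk_eq_inl_mul_inr] at hab
    have h2 := congrArg SemidirectProduct.left hab.1
    have h3 := congrArg SemidirectProduct.left hab.2
    have h4 := congrArg SemidirectProduct.right hab.1
    simp at h2 h3 h4
    simp [h2, h3, h4]
  · rintro ⟨x, y⟩
    constructor
    · rintro ⟨s, hs⟩
      refine ⟨((c.c s, c'.c s), ⟨𝒜.θ s, ⟨s, rfl⟩⟩), ?_⟩
      rw [← hs]
      rfl
    · rintro ⟨⟨⟨a, b⟩, ⟨_, s, rfl⟩⟩, ht⟩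
      obtain ⟨ν, hν, h5, h6⟩ := h ((𝒜.θ s)⁻¹ ((c.c s)⁻¹ * a)) ((𝒜.θ s)⁻¹ ((c'.c s)⁻¹ * b))
      refine ⟨s * ν, ?_⟩
      rw [← ht]
      have hν' : 𝒜.θ ν = 1 := hν
      refine Prod.ext (SemidirectProduct.ext ?_ ?_) (SemidirectProduct.ext ?_ ?_)
      · show c.c (s * ν) = a
        rw [c.mul, h5, MulAut.apply_inv_self, mul_inv_cancel_left]
      · show 𝒜.θ (s * ν) = 𝒜.θ s
        rw [map_mul, hν', mul_one]
      · show c'.c (s * ν) = b
        rw [c'.mul, h6, MulAut.apply_inv_self, mul_inv_cancel_left]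
      · show 𝒜.θ (s * ν) = 𝒜.θ s
        rw [map_mul, hν', mul_one]

theorem classes_eq [Fintype G] : 𝒜.classes = cls 𝒜.θ.range := by
  unfold LinearAction.classes cls
  refine Nat.card_congr (Quot.congrRight fun x y => ?_)
  constructor
  · rintro ⟨g, σ, h⟩
    exact ⟨g, 𝒜.θ σ, ⟨σ, rfl⟩, h⟩
  · rintro ⟨g, _, ⟨σ, rfl⟩, h⟩
    exact ⟨g, σ, h⟩

/-- **mean value for one cocycle** -/
theorem mean_self [Fintype G] {c : Cocycle 𝒜} (h : Surj c)
    (σ : HeightOneSpectrum (𝓞 K) → GK K) (hσ : ∀ v, IsFrob v (σ v)) :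
    Tendsto (fun ε : ℝ => (EP (nm K) ε fun v => PP c c (σ v)) / lam ε) (𝓝[>] 0)
      (𝓝 ((𝒜.classes : ℝ) - 1)) := by
  classical
  have hfa : Finite (MulAut G) := by
    have : Finite (Equiv.Perm G) := inferInstance
    exact Finite.of_injective (MulAut.toPerm G) (fun a b hab => MulEquiv.ext fun x =>
      congrArg (fun f : Equiv.Perm G => f x) hab)
  let _ : Fintype (𝒜.θ.range) := Fintype.ofFinite _
  have h1 := (cheb_range ((hol c).prod (hol c)) (prod_open c c) FF (FF_conj c c) σ hσ).2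
  refine h1.trans (le_of_eq ?_)
  congr 1
  rw [mean_range _ _ (T := G × 𝒜.θ.range) (fun t => (⟨t.1, t.2⟩, ⟨t.1, t.2⟩)) ?_ ?_]
  · rw [Fintype.sum_prod_type_right]
    have e1 : ∀ τ : 𝒜.θ.range, ∑ g : G, FF ((⟨g, τ⟩, ⟨g, τ⟩) :
        (G ⋊[MonoidHom.id (MulAut G)] MulAut G) × (G ⋊[MonoidHom.id (MulAut G)] MulAut G)) =
        ∑ g : G, nn (τ : MulAut G) g g - Fintype.card G := by
      intro τ
      unfold FF
      simp only
      rw [Finset.sum_sub_distrib, Finset.sum_const, Finset.card_univ, nsmul_eq_mul, mul_one]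
    rw [Finset.sum_congr rfl fun τ _ => e1 τ, Finset.sum_sub_distrib, burnside_cls,
      Finset.sum_const, Finset.card_univ, nsmul_eq_mul, classes_eq, Fintype.card_prod]
    have h2 : (Fintype.card G : ℝ) ≠ 0 := gcard_pos.ne'
    have h3 : (Fintype.card 𝒜.θ.range : ℝ) ≠ 0 := by exact_mod_cast Fintype.card_ne_zero
    push_cast
    field_simp
  · rintro ⟨a, τ⟩ ⟨a', τ'⟩ hab
    simp only [Prod.mk.injEq] at hab
    have h2 := congrArg SemidirectProduct.left hab.1
    have h4 := congrArg SemidirectProduct.right hab.1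
    simp only at h2 h4
    exact Prod.ext h2 (Subtype.ext h4)
  · rintro ⟨x, y⟩
    constructor
    · rintro ⟨s, hs⟩
      refine ⟨(c.c s, ⟨𝒜.θ s, ⟨s, rfl⟩⟩), ?_⟩
      rw [← hs]
      rfl
    · rintro ⟨⟨a, ⟨_, s, rfl⟩⟩, ht⟩
      obtain ⟨ν, hν, h5⟩ := h ((𝒜.θ s)⁻¹ ((c.c s)⁻¹ * a))
      refine ⟨s * ν, ?_⟩
      rw [← ht]
      have hν' : 𝒜.θ ν = 1 := hν
      refine Prod.ext (SemidirectProduct.ext ?_ ?_) (SemidirectProduct.ext ?_ ?_)
      · show c.c (s * ν) = a
        rw [c.mul, h5, MulAut.apply_inv_self, mul_inv_cancel_left]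
      · show 𝒜.θ (s * ν) = 𝒜.θ s
        rw [map_mul, hν', mul_one]
      · show c.c (s * ν) = a
        rw [c.mul, h5, MulAut.apply_inv_self, mul_inv_cancel_left]
      · show 𝒜.θ (s * ν) = 𝒜.θ s
        rw [map_mul, hν', mul_one]

/-- the function is bounded -/
theorem PP_bdd [Fintype G] (c c' : Cocycle 𝒜) (σ : GK K) :
    |PP c c' σ| ≤ Fintype.card G + 1 := by
  unfold PP
  have h1 := nn_nonneg (𝒜.θ σ) (c.c σ) (c'.c σ)
  have h2 := nn_le (𝒜.θ σ) (c.c σ) (c'.c σ)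
  rw [abs_le]
  constructor <;> linarith

end

section
variable {K : Type} [Field K] [NumberField K] {l : ℕ} {G : Type} [Group G]
  {𝒜 : LinearAction K l G} {V : Type} [AddCommGroup V] [Module ℚ V] [FiniteDimensional ℚ V]
  {ρ : Representation ℚ (G ⋊[𝒜.θ] Gal(AlgebraicClosure K/K)) V}

/-- sum of the inverse characters of a finite group -/
theorem sum_char_inv {H : Type*} [Group H] [Fintype H] (r : Representation ℚ H V) :
    ∑ g : H, LinearMap.trace ℚ V (r g⁻¹) = Fintype.card H * Module.finrank ℚ r.invariants := by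
  rw [← sum_char r, ← Equiv.sum_comp (Equiv.inv H)]
  exact Finset.sum_congr rfl fun g _ => by rw [Equiv.inv_apply, inv_inv]

/-- **the rank of a form** -/
theorem mean_rank (c : Cocycle 𝒜)
    (hρ : ∃ U : Subgroup (GK K), IsOpen (U : Set (GK K)) ∧
      ∀ u ∈ U, ρ (SemidirectProduct.inr u) = 1)
    (σ : HeightOneSpectrum (𝓞 K) → GK K) (hσ : ∀ v, IsFrob v (σ v)) :
    (∃ B : ℝ, ∀ g : GK K, |cv 𝒜 ρ ⟨c.c g, g⟩| ≤ B) ∧
    Tendsto (fun ε : ℝ => (EP (nm K) ε fun v => cv 𝒜 ρ ⟨c.c (σ v), σ v⟩) / lam ε) (𝓝[>] 0)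
      (𝓝 (c.rank ρ : ℝ)) := by
  classical
  set r : Representation ℚ (GK K) V := ρ.comp (sec c) with hr
  set Φ : GK K →* (Module.End ℚ V)ˣ := MonoidHom.toHomUnits r with hΦ
  have hop : IsOpen (Φ.ker : Set (GK K)) := by
    obtain ⟨U, hU, hU1⟩ := hρ
    obtain ⟨W, hW, hW1⟩ := c.cont
    refine Subgroup.isOpen_mono (H₁ := U ⊓ W) (fun u hu => ?_) (by
      rw [Subgroup.coe_inf]
      exact hU.inter hW)
    rw [MonoidHom.mem_ker]
    refine Units.ext ?_
    show ρ ⟨c.c u, u⟩ = 1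
    rw [hW1 u hu.2]
    exact hU1 u hu.1
  have hfin : Finite (GK K ⧸ Φ.ker) := Subgroup.quotient_finite_of_isOpen _ hop
  have hfin' : Finite Φ.range :=
    Finite.of_equiv _ (QuotientGroup.quotientKerEquivRange Φ).toEquiv
  let _ : Fintype Φ.range := Fintype.ofFinite _
  set F : (Module.End ℚ V)ˣ → ℝ := fun u =>
    ((LinearMap.trace ℚ V ((u⁻¹ : (Module.End ℚ V)ˣ) : Module.End ℚ V) : ℚ) : ℝ) with hF
  have hFc : ∀ u w : (Module.End ℚ V)ˣ, F (w * u * w⁻¹) = F u := by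
    intro u w
    rw [hF]
    simp only
    have e1 : (w * u * w⁻¹)⁻¹ = w * u⁻¹ * w⁻¹ := by group
    rw [e1, Units.val_mul, LinearMap.trace_mul_comm, Units.val_mul, ← mul_assoc,
      Units.inv_mul, one_mul]
  have hFΦ : ∀ g, F (Φ g) = cv 𝒜 ρ ⟨c.c g, g⟩ := by
    intro g
    rw [hF]
    simp only
    unfold cv
    have e1 : (((Φ g)⁻¹ : (Module.End ℚ V)ˣ) : Module.End ℚ V) = ρ (sec c g)⁻¹ := by
      rw [← map_inv, ← map_inv]
      rfl
    rw [e1]
    rfl
  obtain ⟨⟨B, hB⟩, hlim⟩ := cheb_range Φ hop F (fun r x => hFc _ _) σ hσ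
  constructor
  · refine ⟨B, fun g => ?_⟩
    rw [← hFΦ]
    exact hB g
  · have e2 : (Nat.card Φ.range : ℝ)⁻¹ * ∑ᶠ h : Φ.range, F h = (c.rank ρ : ℝ) := by
      set r' : Representation ℚ Φ.range V :=
        (Units.coeHom (Module.End ℚ V)).comp Φ.range.subtype with hr'
      have h1 := sum_char_inv r'
      have h2 : (∑ᶠ h : Φ.range, F h) = ((∑ g : Φ.range, LinearMap.trace ℚ V (r' g⁻¹) : ℚ) : ℝ) := by
        rw [finsum_eq_sum_of_fintype]
        push_cast
        rfl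
      have h3 : Module.finrank ℚ r'.invariants = c.rank ρ := by
        unfold Cocycle.rank
        have h4 : ∀ x : V, x ∈ r'.invariants ↔ ∀ σ, ρ ⟨c.c σ, σ⟩ x = x := by
          intro x
          constructor
          · intro h σ
            exact h ⟨Φ σ, ⟨σ, rfl⟩⟩
          · rintro h ⟨_, σ, rfl⟩
            exact h σ
        exact congrArg (fun S : Submodule ℚ V => Module.finrank ℚ S) (Submodule.ext h4)
      rw [h2, h1, h3, Nat.card_eq_fintype_card]
      have h4 : (Fintype.card Φ.range : ℝ) ≠ 0 := by exact_mod_cast Fintype.card_ne_zero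
      push_cast
      rw [inv_mul_cancel_left₀ h4]
    rw [e2] at hlim
    refine hlim.congr fun ε => ?_
    congr 2
    funext v
    exact hFΦ _

/-- **the rank of the quotient** -/
theorem mean_quot [Fintype G]
    (hρ : ∃ U : Subgroup (GK K), IsOpen (U : Set (GK K)) ∧
      ∀ u ∈ U, ρ (SemidirectProduct.inr u) = 1)
    (σ : HeightOneSpectrum (𝓞 K) → GK K) (hσ : ∀ v, IsFrob v (σ v)) :
    (∃ B : ℝ, ∀ g : GK K, |(Fintype.card G : ℝ)⁻¹ * ∑ k : G, cv 𝒜 ρ ⟨k, g⟩| ≤ B) ∧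
    Tendsto (fun ε : ℝ => (EP (nm K) ε fun v => (Fintype.card G : ℝ)⁻¹ *
      ∑ k : G, cv 𝒜 ρ ⟨k, σ v⟩) / lam ε) (𝓝[>] 0) (𝓝 (quotientRank 𝒜 ρ : ℝ)) := by
  classical
  set uG : G →* (Module.End ℚ V)ˣ := MonoidHom.toHomUnits (ρ.comp SemidirectProduct.inl) with huG
  set uR : GK K →* (Module.End ℚ V)ˣ := MonoidHom.toHomUnits (ρ.comp SemidirectProduct.inr)
    with huR
  set Φ : GK K →* (Module.End ℚ V)ˣ × MulAut G := uR.prod 𝒜.θ with hΦ
  have hop : IsOpen (Φ.ker : Set (GK K)) := by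
    obtain ⟨U, hU, hU1⟩ := hρ
    obtain ⟨W, hW, hW1⟩ := 𝒜.cont
    refine Subgroup.isOpen_mono (H₁ := U ⊓ W) (fun u hu => ?_) (by
      rw [Subgroup.coe_inf]
      exact hU.inter hW)
    rw [MonoidHom.mem_ker]
    exact Prod.ext (Units.ext (hU1 u hu.1)) (hW1 u hu.2)
  have hfin : Finite (GK K ⧸ Φ.ker) := Subgroup.quotient_finite_of_isOpen _ hop
  have hfin' : Finite Φ.range :=
    Finite.of_equiv _ (QuotientGroup.quotientKerEquivRange Φ).toEquiv
  let _ : Fintype Φ.range := Fintype.ofFinite _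
  -- the conjugation
  have hconj : ∀ (s : GK K) (g : G), uR s * uG g * (uR s)⁻¹ = uG (𝒜.θ s g) := by
    intro s g
    rw [← map_inv]
    refine Units.ext ?_
    show ρ (SemidirectProduct.inr s) * ρ (SemidirectProduct.inl g) *
      ρ (SemidirectProduct.inr s⁻¹) = ρ (SemidirectProduct.inl (𝒜.θ s g))
    rw [← map_mul, ← map_mul, SemidirectProduct.inl_aut]
  set F : (Module.End ℚ V)ˣ × MulAut G → ℝ := fun p => (Fintype.card G : ℝ)⁻¹ * ∑ k : G,
    ((LinearMap.trace ℚ V (((uG k * p.1)⁻¹ : (Module.End ℚ V)ˣ) : Module.End ℚ V) : ℚ) : ℝ)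
    with hF
  have htr : ∀ u w : (Module.End ℚ V)ˣ, LinearMap.trace ℚ V
      (((w * u * w⁻¹)⁻¹ : (Module.End ℚ V)ˣ) : Module.End ℚ V) =
      LinearMap.trace ℚ V ((u⁻¹ : (Module.End ℚ V)ˣ) : Module.End ℚ V) := by
    intro u w
    have e1 : (w * u * w⁻¹)⁻¹ = w * u⁻¹ * w⁻¹ := by group
    rw [e1, Units.val_mul, LinearMap.trace_mul_comm, Units.val_mul, ← mul_assoc,
      Units.inv_mul, one_mul]
  have hFc : ∀ s x : GK K, F (Φ s * Φ x * (Φ s)⁻¹) = F (Φ x) := by
    intro s x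
    rw [hF]
    simp only
    congr 1
    have e0 : ∀ k : G, uG (𝒜.θ s k) * (Φ s * Φ x * (Φ s)⁻¹).1 =
        uR s * (uG k * (Φ x).1) * (uR s)⁻¹ := by
      intro k
      rw [← hconj]
      show uR s * uG k * (uR s)⁻¹ * (uR s * uR x * (uR s)⁻¹) = uR s * (uG k * uR x) * (uR s)⁻¹
      group
    rw [← Equiv.sum_comp (𝒜.θ s).toEquiv]
    refine Finset.sum_congr rfl fun k _ => ?_
    have e2 : uG ((𝒜.θ s).toEquiv k) * (Φ s * Φ x * (Φ s)⁻¹).1 =
        uR s * (uG k * (Φ x).1) * (uR s)⁻¹ := e0 k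
    rw [e2, htr]
  have hFΦ : ∀ g, F (Φ g) = (Fintype.card G : ℝ)⁻¹ * ∑ k : G, cv 𝒜 ρ ⟨k, g⟩ := by
    intro g
    rw [hF]
    simp only
    congr 1
    refine Finset.sum_congr rfl fun k _ => ?_
    unfold cv
    have e1 : (((uG k * (Φ g).1)⁻¹ : (Module.End ℚ V)ˣ) : Module.End ℚ V) = ρ (⟨k, g⟩)⁻¹ := by
      have e3 : uG k * (Φ g).1 = MonoidHom.toHomUnits ρ ⟨k, g⟩ := by
        refine Units.ext ?_
        show ρ (SemidirectProduct.inl k) * ρ (SemidirectProduct.inr g) = ρ ⟨k, g⟩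
        rw [← map_mul, SemidirectProduct.mk_eq_inl_mul_inr]
      rw [e3, ← map_inv]
      rfl
    rw [e1]
  obtain ⟨⟨B, hB⟩, hlim⟩ := cheb_range Φ hop F hFc σ hσ
  constructor
  · refine ⟨B, fun g => ?_⟩
    rw [← hFΦ]
    exact hB g
  · have e2 : (Nat.card Φ.range : ℝ)⁻¹ * ∑ᶠ h : Φ.range, F h = (quotientRank 𝒜 ρ : ℝ) := by
      set ψ : Φ.range →* MulAut G := (MonoidHom.snd _ _).comp Φ.range.subtype with hψ
      set f₁ : G →* (Module.End ℚ V)ˣ := uG with hf₁
      set f₂ : Φ.range →* (Module.End ℚ V)ˣ := (MonoidHom.fst _ _).comp Φ.range.subtype with hf₂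
      set f : G ⋊[ψ] Φ.range →* (Module.End ℚ V)ˣ := SemidirectProduct.lift f₁ f₂ (by
        rintro ⟨_, s, rfl⟩
        ext g : 1
        exact (hconj s g).symm) with hf
      let eq : (G ⋊[ψ] Φ.range) ≃ G × Φ.range := SemidirectProduct.equivProd
      let ft : Fintype (G ⋊[ψ] Φ.range) := Fintype.ofEquiv _ eq.symm
      have hcard : Fintype.card (G ⋊[ψ] Φ.range) = Fintype.card G * Fintype.card Φ.range := by
        rw [Fintype.card_congr eq, Fintype.card_prod]
      set r' : Representation ℚ (G ⋊[ψ] Φ.range) V :=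
        (Units.coeHom (Module.End ℚ V)).comp f with hr'
      have h1 := sum_char_inv r'
      have h2 : (∑ᶠ h : Φ.range, F h) = (Fintype.card G : ℝ)⁻¹ *
          ((∑ g : G ⋊[ψ] Φ.range, LinearMap.trace ℚ V (r' g⁻¹) : ℚ) : ℝ) := by
        rw [finsum_eq_sum_of_fintype, ← Equiv.sum_comp eq.symm, Fintype.sum_prod_type_right]
        push_cast
        rw [Finset.mul_sum]
        refine Finset.sum_congr rfl fun p _ => ?_
        rw [hF]
        simp only
        congr 1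
        refine Finset.sum_congr rfl fun k _ => ?_
        have e5 : (((uG k * (p : (Module.End ℚ V)ˣ × MulAut G).1)⁻¹ : (Module.End ℚ V)ˣ) :
            Module.End ℚ V) = r' (eq.symm (k, p))⁻¹ := by
          have e6 : uG k * (p : (Module.End ℚ V)ˣ × MulAut G).1 = f (eq.symm (k, p)) := by
            have e7 : (eq.symm (k, p)) = SemidirectProduct.inl k * SemidirectProduct.inr p :=
              SemidirectProduct.mk_eq_inl_mul_inr p k
            rw [e7, map_mul, hf, SemidirectProduct.lift_inl, SemidirectProduct.lift_inr]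
            rfl
          rw [e6, ← map_inv]
          rfl
        rw [e5]
      have h3 : Module.finrank ℚ r'.invariants = quotientRank 𝒜 ρ := by
        unfold quotientRank
        refine congrArg (fun S : Submodule ℚ V => Module.finrank ℚ S) (Submodule.ext fun x => ?_)
        constructor
        · rintro h ⟨k, s⟩
          have h5 := h (⟨k, ⟨Φ s, ⟨s, rfl⟩⟩⟩ : G ⋊[ψ] Φ.range)
          have e8 : r' (⟨k, ⟨Φ s, ⟨s, rfl⟩⟩⟩ : G ⋊[ψ] Φ.range) = ρ ⟨k, s⟩ := by
            have e9 : f (⟨k, ⟨Φ s, ⟨s, rfl⟩⟩⟩ : G ⋊[ψ] Φ.range) =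
                MonoidHom.toHomUnits ρ ⟨k, s⟩ := by
              rw [SemidirectProduct.mk_eq_inl_mul_inr, map_mul, hf, SemidirectProduct.lift_inl,
                SemidirectProduct.lift_inr]
              refine Units.ext ?_
              show ρ (SemidirectProduct.inl k) * ρ (SemidirectProduct.inr s) = ρ ⟨k, s⟩
              rw [← map_mul, ← SemidirectProduct.mk_eq_inl_mul_inr]
            have e10 := congrArg (fun u : (Module.End ℚ V)ˣ => (u : Module.End ℚ V)) e9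
            exact e10
          rw [e8] at h5
          exact h5
        · rintro h ⟨k, ⟨_, s, rfl⟩⟩
          have e8 : r' (⟨k, ⟨Φ s, ⟨s, rfl⟩⟩⟩ : G ⋊[ψ] Φ.range) = ρ ⟨k, s⟩ := by
            have e9 : f (⟨k, ⟨Φ s, ⟨s, rfl⟩⟩⟩ : G ⋊[ψ] Φ.range) =
                MonoidHom.toHomUnits ρ ⟨k, s⟩ := by
              rw [SemidirectProduct.mk_eq_inl_mul_inr, map_mul, hf, SemidirectProduct.lift_inl,
                SemidirectProduct.lift_inr]
              refine Units.ext ?_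
              show ρ (SemidirectProduct.inl k) * ρ (SemidirectProduct.inr s) = ρ ⟨k, s⟩
              rw [← map_mul, ← SemidirectProduct.mk_eq_inl_mul_inr]
            have e10 := congrArg (fun u : (Module.End ℚ V)ˣ => (u : Module.End ℚ V)) e9
            exact e10
          rw [e8]
          exact h _
      rw [h2, h1, h3, Nat.card_eq_fintype_card, hcard]
      have h4 : (Fintype.card Φ.range : ℝ) ≠ 0 := by exact_mod_cast Fintype.card_ne_zero
      have h5 : (Fintype.card G : ℝ) ≠ 0 := gcard_pos.ne'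
      push_cast
      field_simp
    rw [e2] at hlim
    refine hlim.congr fun ε => ?_
    congr 2
    funext v
    exact hFΦ _

end

end Pool.Agent.K7.H53.FM
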