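import Pool.Agent.K7.H53.FM.Cheb

/-! The sum over independent forms. -/

set_option autoImplicit false

namespace Pool.Agent.K7.H53.FM

open Complex Filter Topology NumberField IsDedekindDomain Polynomial
open Pool.Agent.W540.BE (EP nm exists_isFrob NormSys normSys EP_add EP_sum EP_const_mul EP_nonneg
  EP_le EP_one two_le_nm)
open Pool.Agent.W353.L1 (EP_mono EP_abs_le)
open Pool.Agent.W401.Cheb
open Pool.Agent.H341R2 (lam lam_tendsto)
open Pool.Agent.W353.EF (IsFrobenius IsEulerSystem LFun size)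
open Pool.Agent.Y722.EP (EP_fin)
open Pool.Agent.Y149.WR (size_sys sq_of_gram)

section
variable {K : Type} [Field K] [NumberField K]

/-- Cauchy's inequality -/
theorem EP_cs {f : HeightOneSpectrum (𝓞 K) → ℝ} {B : ℝ} (hf : ∀ v, |f v| ≤ B) {ε : ℝ}
    (hε : 0 < ε) (h1 : 0 < EP (nm K) ε fun _ => 1) :
    EP (nm K) ε f ^ 2 ≤ (EP (nm K) ε fun _ => 1) * EP (nm K) ε fun v => f v ^ 2 := by
  have hN : NormSys (nm K) := normSys
  set A := EP (nm K) ε fun _ => 1 with hA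
  set E := EP (nm K) ε f with hE
  set E2 := EP (nm K) ε fun v => f v ^ 2 with hE2
  have hf2 : ∀ v, |f v ^ 2| ≤ B ^ 2 := fun v => by
    rw [abs_pow]
    exact pow_le_pow_left₀ (abs_nonneg _) (hf v) 2
  set t := E / A with ht
  have h2 : 0 ≤ EP (nm K) ε fun v => (f v - t) ^ 2 := EP_nonneg fun v => sq_nonneg _
  have e1 : (fun v => (f v - t) ^ 2) = fun v => (f v ^ 2 + (-(2 * t)) * f v) + t ^ 2 * 1 := by
    funext v
    ring
  rw [e1, EP_add hN hε (B := B ^ 2 + |2 * t| * B) (B' := t ^ 2) (fun v => by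
      refine (abs_add_le _ _).trans (add_le_add (hf2 v) ?_)
      rw [abs_mul, abs_neg]
      exact mul_le_mul_of_nonneg_left (hf v) (abs_nonneg _)) (fun v => by
      rw [mul_one, abs_of_nonneg (sq_nonneg _)]),
    EP_add hN hε hf2 (B' := |2 * t| * B) (fun v => by
      rw [abs_mul, abs_neg]
      exact mul_le_mul_of_nonneg_left (hf v) (abs_nonneg _)), EP_const_mul, EP_const_mul] at h2
  have h3 : 0 ≤ E2 + -(2 * t) * E + t ^ 2 * A := h2
  have h4 : t * A = E := by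
    rw [ht]
    field_simp
  have h5 : t ^ 2 * A = t * E := by rw [sq, mul_assoc, h4]
  have h6 : 0 ≤ A * (E2 - t * E) := mul_nonneg h1.le (by linarith)
  have h7 : A * (t * E) = E ^ 2 := by rw [← mul_assoc, mul_comm A t, h4]; ring
  linarith

end

section
variable {K : Type} [Field K] [NumberField K] {l : ℕ} {G : Type} [Group G] [Fintype G]
  (𝒜 : LinearAction K l G) (X : Set (MvPolynomial (Fin l) (𝓞 K))) (d m N : ℕ)
  {V : Type} [AddCommGroup V] [Module ℚ V] [FiniteDimensional ℚ V]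
  (ρ : Representation ℚ (G ⋊[𝒜.θ] Gal(AlgebraicClosure K/K)) V)
  (Q : HeightOneSpectrum (𝓞 K) → Ideal (𝓞 (AlgebraicClosure K)))
  (σ : HeightOneSpectrum (𝓞 K) → GK K)

/-- the good primes -/
def Good (v : HeightOneSpectrum (𝓞 K)) : Prop :=
  Pres 𝒜 X (Q v) ∧ ∀ g, ∃ α, Has 𝒜 X d m N ρ v (Q v) (σ v) g α

open Classical in
/-- the difference of the traces at good primes -/
noncomputable def DD (v : HeightOneSpectrum (𝓞 K)) (g : G) : ℝ :=
  if Good 𝒜 X d m N ρ Q σ v then ff 𝒜 X d m N ρ v (Q v) (σ v) g else 0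

/-- the mean value -/
noncomputable def D0 (v : HeightOneSpectrum (𝓞 K)) : ℝ :=
  (Fintype.card G : ℝ)⁻¹ * ∑ g, DD 𝒜 X d m N ρ Q σ v g

variable {𝒜 X d m N ρ Q σ}

theorem abs_DD (v : HeightOneSpectrum (𝓞 K)) (g : G) :
    |DD 𝒜 X d m N ρ Q σ v g| ≤ ((N - Module.finrank ℚ V : ℕ) : ℝ) := by
  unfold DD
  split_ifs with h
  · exact abs_ff (h.2 g)
  · rw [abs_zero]
    exact Nat.cast_nonneg _

theorem abs_D0 (v : HeightOneSpectrum (𝓞 K)) :
    |D0 𝒜 X d m N ρ Q σ v| ≤ ((N - Module.finrank ℚ V : ℕ) : ℝ) := by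
  unfold D0
  rw [abs_mul, abs_inv, Nat.abs_cast, inv_mul_le_iff₀ gcard_pos]
  refine (Finset.abs_sum_le_sum_abs _ _).trans ?_
  refine (Finset.sum_le_card_nsmul _ _ _ fun g _ => abs_DD v g).trans ?_
  rw [nsmul_eq_mul, Finset.card_univ]

theorem DD_conj (hmd : m ≤ d) (hσ : ∀ v, IsFrobAt v (Q v) (σ v))
    (v : HeightOneSpectrum (𝓞 K)) (g k : G) :
    DD 𝒜 X d m N ρ Q σ v (k * g * (𝒜.θ (σ v) k)⁻¹) = DD 𝒜 X d m N ρ Q σ v g := by
  unfold DD
  split_ifs with h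
  · exact ff_conj hmd (hσ v) h.1 h.2 g k
  · rfl

theorem good_ae (hX : 𝒜.ActsOn X) (hV : IsPart 𝒜 X d m N ρ)
    (hσ : ∀ v, IsFrobAt v (Q v) (σ v)) : ∀ᶠ v in cofinite, Good 𝒜 X d m N ρ Q σ v := by
  filter_upwards [pres_ae hX, hV.2] with v h1 h2
  exact ⟨h1 (Q v) (hσ v).1 (hσ v).2.1, fun g => h2 (Q v) (σ v) (hσ v) g⟩

theorem nm_eq (v : HeightOneSpectrum (𝓞 K)) : (nm K v : ℝ) = (Ideal.absNorm v.asIdeal : ℝ) := rfl

theorem rpow_half (v : HeightOneSpectrum (𝓞 K)) :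
    (nm K v : ℝ) ^ (-(((2 * m : ℕ) : ℝ) / 2)) = ((Ideal.absNorm v.asIdeal : ℝ) ^ m)⁻¹ := by
  have e : (((2 * m : ℕ) : ℝ) / 2) = (m : ℝ) := by push_cast; ring
  rw [e, nm_eq, Real.rpow_neg (norm_pos v).le, Real.rpow_natCast]

/-- **the size of a form** -/
theorem size_form (hmd : m ≤ d) (hX : 𝒜.ActsOn X) (hV : IsPart 𝒜 X d m N ρ)
    (hσ : ∀ v, IsFrobAt v (Q v) (σ v)) {c : Cocycle 𝒜}
    {X' : Set (MvPolynomial (Fin l) (𝓞 K))} (hc : c.IsForm X X')
    {B : HeightOneSpectrum (𝓞 K) → ℂ[X]} (hB : IsEulerSystem X' d (2 * m) N B) :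
    (∀ᶠ ε : ℝ in 𝓝[>] 0, LFun B (((2 * m : ℕ) : ℂ) / 2 + 1 + ε) ≠ 0) ∧
    Tendsto (fun ε : ℝ => (EP (nm K) ε fun v => DD 𝒜 X d m N ρ Q σ v (c.c (σ v))) / lam ε -
      (size (2 * m) B ε - c.rank ρ)) (𝓝[>] 0) (𝓝 0) := by
  have hN : NormSys (nm K) := normSys
  have hσ' : ∀ v, IsFrob v (σ v) := fun v => ⟨Q v, hσ v⟩
  have h1 := size_sys (i := 2 * m) (M := N) B
    (fun v => ∑ j, al 𝒜 X d m N ρ v (Q v) (σ v) (c.c (σ v)) j) (by
      filter_upwards [hB.1, form_eigen hc d (2 * m), good_ae hX hV hσ] with v h2 h3 h4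
      obtain ⟨α, h5, h6⟩ := h2
      have h7 := h3 (Q v) (σ v) (hσ v) α h5
      have h8 := al_spec 𝒜 X d m N ρ (h4.2 (c.c (σ v)))
      refine ⟨IsEigen.im (by omega) h8.1, α, fun j => ?_, IsEigen.sum_eq (by omega) h7 h8.1, h6⟩
      exact IsEigen.norm h7 j) hB.2
    (fun v => th 𝒜 X d m N ρ v (Q v) (σ v) (c.c (σ v))) (D := N) (fun v => abs_th) (by
      refine Eventually.of_forall fun v => ?_
      rw [rpow_half]
      rfl)
  refine ⟨h1.1, ?_⟩
  obtain ⟨⟨C, hC⟩, h2⟩ := mean_rank (ρ := ρ) c hV.1 σ hσ'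
  have hb1 : ∀ v, |th 𝒜 X d m N ρ v (Q v) (σ v) (c.c (σ v))| ≤ N := fun v => abs_th
  have hb2 : ∀ v : HeightOneSpectrum (𝓞 K), |(-1) * cv 𝒜 ρ ⟨c.c (σ v), σ v⟩| ≤ C := fun v => by
    rw [abs_mul, abs_neg, abs_one, one_mul]
    exact hC _
  have hb3 : ∀ v, |th 𝒜 X d m N ρ v (Q v) (σ v) (c.c (σ v)) +
      (-1) * cv 𝒜 ρ ⟨c.c (σ v), σ v⟩| ≤ N + C := fun v =>
    (abs_add_le _ _).trans (add_le_add (hb1 v) (hb2 v))
  have hb4 : ∀ v, |(-1) * DD 𝒜 X d m N ρ Q σ v (c.c (σ v))| ≤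
      ((N - Module.finrank ℚ V : ℕ) : ℝ) := fun v => by
    rw [abs_mul, abs_neg, abs_one, one_mul]
    exact abs_DD v _
  have h3 := EP_fin (φ := fun v => (th 𝒜 X d m N ρ v (Q v) (σ v) (c.c (σ v)) +
      (-1) * cv 𝒜 ρ ⟨c.c (σ v), σ v⟩) + (-1) * DD 𝒜 X d m N ρ Q σ v (c.c (σ v)))
    (B := (N + C) + ((N - Module.finrank ℚ V : ℕ) : ℝ))
    (fun v => (abs_add_le _ _).trans (add_le_add (hb3 v) (hb4 v))) (by
      filter_upwards [good_ae hX hV hσ] with v h4
      unfold DD ff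
      rw [if_pos h4]
      ring)
  have h5 := (h1.2.sub (h2.sub_const (c.rank ρ : ℝ))).sub h3
  rw [sub_self, sub_zero, sub_zero] at h5
  refine h5.congr' ?_
  filter_upwards [self_mem_nhdsWithin] with ε hε
  have hε' : (0 : ℝ) < ε := hε
  rw [EP_add hN hε' hb3 hb4, EP_add hN hε' hb1 hb2, EP_const_mul, EP_const_mul]
  ring

/-- a function asymptotic to the mean value of the traces -/
def IsRef (𝒜 : LinearAction K l G) (X : Set (MvPolynomial (Fin l) (𝓞 K))) (d m N : ℕ)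
    (ρ : Representation ℚ (G ⋊[𝒜.θ] Gal(AlgebraicClosure K/K)) V)
    (Q : HeightOneSpectrum (𝓞 K) → Ideal (𝓞 (AlgebraicClosure K)))
    (σ : HeightOneSpectrum (𝓞 K) → GK K) (ref : ℝ → ℝ) : Prop :=
  Tendsto (fun ε : ℝ => (EP (nm K) ε fun v => D0 𝒜 X d m N ρ Q σ v) / lam ε - ref ε)
    (𝓝[>] 0) (𝓝 0)

/-- **the size of the quotient** -/
theorem size_quot (hmd : m ≤ d) (hX : 𝒜.ActsOn X) (hV : IsPart 𝒜 X d m N ρ)
    (hσ : ∀ v, IsFrobAt v (Q v) (σ v)) {M : ℕ} {B : HeightOneSpectrum (𝓞 K) → ℂ[X]}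
    (hB : IsQuotientSystem 𝒜 X d (2 * m) N M B) :
    (∀ᶠ ε : ℝ in 𝓝[>] 0, LFun B (((2 * m : ℕ) : ℂ) / 2 + 1 + ε) ≠ 0) ∧
    IsRef 𝒜 X d m N ρ Q σ fun ε => size (2 * m) B ε - quotientRank 𝒜 ρ := by
  classical
  have hN : NormSys (nm K) := normSys
  have hσ' : ∀ v, IsFrob v (σ v) := fun v => ⟨Q v, hσ v⟩
  set T : HeightOneSpectrum (𝓞 K) → ℂ := fun v => (Nat.card G : ℂ)⁻¹ *
    ∑ᶠ g : G, ∑ j, al 𝒜 X d m N ρ v (Q v) (σ v) g j with hT
  have hn0 : (0 : ℝ) < Fintype.card G := gcard_pos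
  have hTre : ∀ v, (T v).re = (Fintype.card G : ℝ)⁻¹ *
      ∑ g : G, (∑ j, al 𝒜 X d m N ρ v (Q v) (σ v) g j).re := by
    intro v
    rw [hT]
    simp only
    have e : (Nat.card G : ℂ)⁻¹ = (((Fintype.card G : ℝ)⁻¹ : ℝ) : ℂ) := by
      rw [Nat.card_eq_fintype_card]
      push_cast
      rfl
    rw [e, Complex.re_ofReal_mul, finsum_eq_sum_of_fintype, Complex.re_sum]
  have hTim : ∀ v, Good 𝒜 X d m N ρ Q σ v → (T v).im = 0 := by
    intro v hv
    rw [hT]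
    simp only
    have e : (Nat.card G : ℂ)⁻¹ = (((Fintype.card G : ℝ)⁻¹ : ℝ) : ℂ) := by
      rw [Nat.card_eq_fintype_card]
      push_cast
      rfl
    rw [e, Complex.im_ofReal_mul, finsum_eq_sum_of_fintype, Complex.im_sum,
      Finset.sum_eq_zero fun g _ => IsEigen.im (by omega) (al_spec 𝒜 X d m N ρ (hv.2 g)).1,
      mul_zero]
  set th0 : HeightOneSpectrum (𝓞 K) → ℝ := fun v => (Fintype.card G : ℝ)⁻¹ *
    ∑ g : G, th 𝒜 X d m N ρ v (Q v) (σ v) g with hth0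
  have hb1 : ∀ v, |th0 v| ≤ N := by
    intro v
    rw [hth0]
    simp only
    rw [abs_mul, abs_inv, Nat.abs_cast, inv_mul_le_iff₀ hn0]
    refine (Finset.abs_sum_le_sum_abs _ _).trans ?_
    refine (Finset.sum_le_card_nsmul _ _ (N : ℝ) fun g _ => abs_th).trans ?_
    rw [nsmul_eq_mul, Finset.card_univ]
  have h1 := size_sys (i := 2 * m) (M := M) B T (by
      filter_upwards [hB.1, good_ae hX hV hσ] with v h2 h4
      obtain ⟨γ, h5, h6, h7⟩ := h2
      refine ⟨hTim v h4, γ, fun j => ?_, ?_, h7⟩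
      · exact h5 j
      · exact h6 (Q v) (σ v) (hσ v) (fun g => al 𝒜 X d m N ρ v (Q v) (σ v) g)
          fun g => (al_spec 𝒜 X d m N ρ (h4.2 g)).1) hB.2 th0 hb1 (by
      refine Eventually.of_forall fun v => ?_
      rw [rpow_half, hTre, hth0]
      simp only
      rw [mul_assoc, Finset.sum_mul]
      rfl)
  refine ⟨h1.1, ?_⟩
  obtain ⟨⟨C, hC⟩, h2⟩ := mean_quot (𝒜 := 𝒜) (ρ := ρ) hV.1 σ hσ'
  obtain ⟨cv0, hcv0⟩ : ∃ f : HeightOneSpectrum (𝓞 K) → ℝ, ∀ v, f v = (Fintype.card G : ℝ)⁻¹ *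
      ∑ k : G, cv 𝒜 ρ ⟨k, σ v⟩ := ⟨_, fun _ => rfl⟩
  simp only [← hcv0] at h2
  have hb2 : ∀ v : HeightOneSpectrum (𝓞 K), |(-1) * cv0 v| ≤ C := fun v => by
    rw [abs_mul, abs_neg, abs_one, one_mul, hcv0]
    exact hC _
  have hb3 : ∀ v, |th0 v + (-1) * cv0 v| ≤ N + C := fun v =>
    (abs_add_le _ _).trans (add_le_add (hb1 v) (hb2 v))
  have hb4 : ∀ v, |(-1) * D0 𝒜 X d m N ρ Q σ v| ≤
      ((N - Module.finrank ℚ V : ℕ) : ℝ) := fun v => by
    rw [abs_mul, abs_neg, abs_one, one_mul]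
    exact abs_D0 v
  have h3 := EP_fin (φ := fun v => (th0 v + (-1) * cv0 v) + (-1) * D0 𝒜 X d m N ρ Q σ v)
    (B := (N + C) + ((N - Module.finrank ℚ V : ℕ) : ℝ))
    (fun v => (abs_add_le _ _).trans (add_le_add (hb3 v) (hb4 v))) (by
      filter_upwards [good_ae hX hV hσ] with v h4
      rw [hth0]
      unfold D0 DD ff
      simp only [if_pos h4]
      rw [hcv0]
      rw [Finset.sum_sub_distrib]
      ring)
  unfold IsRef
  have h5 := (h1.2.sub (h2.sub_const (quotientRank 𝒜 ρ : ℝ))).sub h3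
  rw [sub_self, sub_zero, sub_zero] at h5
  refine h5.congr' ?_
  filter_upwards [self_mem_nhdsWithin] with ε hε
  have hε' : (0 : ℝ) < ε := hε
  have e7 : EP (nm K) ε (fun v => (-1) * D0 𝒜 X d m N ρ Q σ v) =
      (-1) * EP (nm K) ε fun v => D0 𝒜 X d m N ρ Q σ v := EP_const_mul _ _
  have e8 : EP (nm K) ε (fun v => (-1) * cv0 v) =
      (-1) * EP (nm K) ε fun v => cv0 v := EP_const_mul _ _
  rw [EP_add hN hε' hb3 hb4, EP_add hN hε' hb1 hb2, e7, e8]
  ring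

/-- **the sum over independent forms** -/
theorem core_sum (hmd : m ≤ d) (hX : 𝒜.ActsOn X) (hV : IsPart 𝒜 X d m N ρ)
    (hσ : ∀ v, IsFrobAt v (Q v) (σ v)) {ref : ℝ → ℝ} (href : IsRef 𝒜 X d m N ρ Q σ ref)
    {κ : Type*} (S : Finset κ) (c : κ → Cocycle 𝒜)
    (hs : ∀ k ∈ S, Surj (c k)) (hd : ∀ k ∈ S, ∀ k' ∈ S, k ≠ k' → Independent (c k) (c k'))
    (X' : κ → Set (MvPolynomial (Fin l) (𝓞 K))) (hc : ∀ k ∈ S, (c k).IsForm X (X' k))
    (B : κ → HeightOneSpectrum (𝓞 K) → ℂ[X])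
    (hB : ∀ k ∈ S, IsEulerSystem (X' k) d (2 * m) N (B k)) {η : ℝ} (hη : 0 < η) :
    ∀ᶠ ε : ℝ in 𝓝[>] 0, ∑ k ∈ S, (size (2 * m) (B k) ε - (c k).rank ρ - ref ε) ^ 2 ≤
      ((𝒜.classes : ℝ) - 1) * ((N - Module.finrank ℚ V : ℕ) : ℝ) ^ 2 + η := by
  classical
  have hN : NormSys (nm K) := normSys
  have hσ' : ∀ v, IsFrob v (σ v) := fun v => ⟨Q v, hσ v⟩
  set s : ℝ := ((N - Module.finrank ℚ V : ℕ) : ℝ) with hs0
  have hs00 : 0 ≤ s := Nat.cast_nonneg _
  have hcl : (1 : ℝ) ≤ 𝒜.classes := by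
    have : 1 ≤ 𝒜.classes := by
      unfold LinearAction.classes
      have : Nonempty (Quot fun x y : G => ∃ (g : G) (σ : Gal(AlgebraicClosure K/K)),
        y = g * 𝒜.θ σ x * g⁻¹) := ⟨Quot.mk _ 1⟩
      exact Nat.card_pos
    exact_mod_cast this
  set g₀ : ℝ := (𝒜.classes : ℝ) - 1 with hg0
  have hg00 : 0 ≤ g₀ := by linarith
  set E : κ → HeightOneSpectrum (𝓞 K) → ℝ := fun k v =>
    DD 𝒜 X d m N ρ Q σ v ((c k).c (σ v)) + (-1) * D0 𝒜 X d m N ρ Q σ v with hE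
  have hEb : ∀ k v, |E k v| ≤ 2 * s := by
    intro k v
    rw [hE]
    simp only
    refine (abs_add_le _ _).trans ?_
    rw [abs_mul, abs_neg, abs_one, one_mul, two_mul]
    exact add_le_add (abs_DD v _) (abs_D0 v)
  set y : κ → ℝ → ℝ := fun k ε => (EP (nm K) ε (E k)) / lam ε with hy
  -- bound
  have hyb : ∀ᶠ ε : ℝ in 𝓝[>] 0, ∀ k ∈ S, |y k ε| ≤ 2 * (2 * s) := by
    filter_upwards [(EP_one K).eventually_lt_const (by norm_num : (1 : ℝ) < 2),
      lam_tendsto.eventually_gt_atTop 0, self_mem_nhdsWithin] with ε h1 h2 h3 k _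
    have hε : (0 : ℝ) < ε := h3
    rw [div_lt_iff₀ h2] at h1
    rw [hy]
    simp only
    rw [abs_div, abs_of_pos h2, div_le_iff₀ h2]
    have h4 := EP_abs_le (φ := E k) (ψ := fun _ => (2 * s) * 1) (B := 2 * s) (fun v => by
      rw [mul_one, abs_of_nonneg (by linarith)]) (fun v => by
      rw [mul_one]
      exact hEb k v) hε
    rw [EP_const_mul] at h4
    nlinarith
  -- means
  have hp : ∀ k ∈ S, ∀ k' ∈ S, Tendsto (fun ε : ℝ =>
      (EP (nm K) ε fun v => PP (c k) (c k') (σ v)) / lam ε) (𝓝[>] 0)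
      (𝓝 (if k = k' then g₀ else 0)) := by
    intro k hk k' hk'
    by_cases h : k = k'
    · subst h
      rw [if_pos rfl]
      exact mean_self (hs k hk) σ hσ'
    · rw [if_neg h]
      exact mean_indep (hd k hk k' hk' h) σ hσ'
  have key := sq_of_gram S y s g₀ hg00 hyb (fun η' hη' => by
    set C : ℝ := 2 * (2 * s) with hC
    have hlim : Tendsto (fun ε : ℝ => s ^ 2 * ∑ k ∈ S, ∑ k' ∈ S, C ^ 2 *
        |((EP (nm K) ε fun _ => 1) / lam ε) *
          ((EP (nm K) ε fun v => PP (c k) (c k') (σ v)) / lam ε) - if k = k' then g₀ else 0|)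
        (𝓝[>] 0) (𝓝 0) := by
      have h0 : Tendsto (fun ε : ℝ => s ^ 2 * ∑ k ∈ S, ∑ k' ∈ S, C ^ 2 *
        |((EP (nm K) ε fun _ => 1) / lam ε) *
          ((EP (nm K) ε fun v => PP (c k) (c k') (σ v)) / lam ε) - if k = k' then g₀ else 0|)
        (𝓝[>] 0) (𝓝 (s ^ 2 * ∑ k ∈ S, ∑ k' ∈ S, C ^ 2 *
          |1 * (if k = k' then g₀ else 0) - if k = k' then g₀ else 0|)) := by
        refine Tendsto.const_mul _ (tendsto_finsetSum _ fun k hk =>
          tendsto_finsetSum _ fun k' hk' => Tendsto.const_mul _ ?_)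
        exact (((EP_one K).mul (hp k hk k' hk')).sub_const _).abs
      refine h0.trans (le_of_eq ?_)
      congr 1
      rw [Finset.sum_eq_zero fun k _ => Finset.sum_eq_zero fun k' _ => by
        rw [one_mul, sub_self, abs_zero, mul_zero], mul_zero]
    filter_upwards [hlim.eventually_lt_const hη', lam_tendsto.eventually_gt_atTop 0,
      self_mem_nhdsWithin, (EP_one K).eventually (lt_mem_nhds (by norm_num : (0 : ℝ) < 1))]
      with ε h1 h2 h3 h4 a ha
    have hε : (0 : ℝ) < ε := h3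
    set L : ℝ := lam ε with hL
    have hone : 0 < EP (nm K) ε fun _ => 1 := by
      have := mul_pos h4 h2
      rwa [div_mul_cancel₀ _ h2.ne'] at this
    -- the combination
    set f : HeightOneSpectrum (𝓞 K) → ℝ := fun v => ∑ k ∈ S, a k * E k v with hf
    have hfb : ∀ v, |f v| ≤ ∑ k ∈ S, |a k| * (2 * s) := by
      intro v
      rw [hf]
      simp only
      refine (Finset.abs_sum_le_sum_abs _ _).trans (Finset.sum_le_sum fun k _ => ?_)
      rw [abs_mul]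
      exact mul_le_mul_of_nonneg_left (hEb k v) (abs_nonneg _)
    have e1 : ∑ k ∈ S, a k * y k ε = EP (nm K) ε f / L := by
      rw [hf, EP_sum hN hε S (fun k v => a k * E k v) (fun k => |a k| * (2 * s))
        (fun k _ v => by
          rw [abs_mul]
          exact mul_le_mul_of_nonneg_left (hEb k v) (abs_nonneg _)), Finset.sum_div]
      refine Finset.sum_congr rfl fun k _ => ?_
      rw [EP_const_mul, mul_div_assoc]
    -- the pointwise inequality
    have hpt : ∀ v, f v ^ 2 ≤ s ^ 2 * ∑ k ∈ S, ∑ k' ∈ S, (a k * a k') *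
        PP (c k) (c k') (σ v) := by
      intro v
      have h5 := bes S (𝒜.θ (σ v)) (fun g => DD 𝒜 X d m N ρ Q σ v g)
        (fun g k => DD_conj hmd hσ v g k) (s := s) (fun g => abs_DD v g) a
        (fun k => (c k).c (σ v))
      refine le_trans (le_of_eq ?_) h5
      congr 1
      rw [hf]
      refine Finset.sum_congr rfl fun k _ => ?_
      rw [hE]
      unfold D0
      ring
    have hPb : ∀ k k' v, |(a k * a k') * PP (c k) (c k') (σ v)| ≤
        |a k * a k'| * (Fintype.card G + 1) := by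
      intro k k' v
      rw [abs_mul]
      exact mul_le_mul_of_nonneg_left (PP_bdd _ _ _) (abs_nonneg _)
    have e2 : EP (nm K) ε (fun v => s ^ 2 * ∑ k ∈ S, ∑ k' ∈ S, (a k * a k') *
        PP (c k) (c k') (σ v)) = s ^ 2 * ∑ k ∈ S, ∑ k' ∈ S, (a k * a k') *
        EP (nm K) ε fun v => PP (c k) (c k') (σ v) := by
      rw [EP_const_mul, EP_sum hN hε S _ (fun k => ∑ k' ∈ S, |a k * a k'| *
        (Fintype.card G + 1)) (fun k _ v => (Finset.abs_sum_le_sum_abs _ _).trans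
        (Finset.sum_le_sum fun k' _ => hPb k k' v))]
      congr 1
      refine Finset.sum_congr rfl fun k _ => ?_
      rw [EP_sum hN hε S _ (fun k' => |a k * a k'| * (Fintype.card G + 1))
        (fun k' _ v => hPb k k' v)]
      exact Finset.sum_congr rfl fun k' _ => EP_const_mul _ _
    have h6 : EP (nm K) ε (fun v => f v ^ 2) ≤ s ^ 2 * ∑ k ∈ S, ∑ k' ∈ S, (a k * a k') *
        EP (nm K) ε fun v => PP (c k) (c k') (σ v) := by
      rw [← e2]
      refine EP_mono (B := (∑ k ∈ S, |a k| * (2 * s)) ^ 2)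
        (B' := s ^ 2 * ∑ k ∈ S, ∑ k' ∈ S, |a k * a k'| * (Fintype.card G + 1)) (fun v => ?_)
        (fun v => ?_) hpt hε
      · rw [abs_pow]
        exact pow_le_pow_left₀ (abs_nonneg _) (hfb v) 2
      · rw [abs_mul, abs_of_nonneg (sq_nonneg _)]
        refine mul_le_mul_of_nonneg_left ?_ (sq_nonneg _)
        exact (Finset.abs_sum_le_sum_abs _ _).trans (Finset.sum_le_sum fun k _ =>
          (Finset.abs_sum_le_sum_abs _ _).trans (Finset.sum_le_sum fun k' _ => hPb k k' v))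
    have h7 := EP_cs hfb hε hone
    set A := EP (nm K) ε fun _ => 1 with hA
    -- the limit quadratic form
    have h8 : (EP (nm K) ε f / L) ^ 2 ≤ s ^ 2 * ∑ k ∈ S, ∑ k' ∈ S, (a k * a k') *
        ((A / L) * ((EP (nm K) ε fun v => PP (c k) (c k') (σ v)) / L)) := by
      have e3 : s ^ 2 * ∑ k ∈ S, ∑ k' ∈ S, (a k * a k') *
          ((A / L) * ((EP (nm K) ε fun v => PP (c k) (c k') (σ v)) / L)) =
          A * (s ^ 2 * ∑ k ∈ S, ∑ k' ∈ S, (a k * a k') *
            EP (nm K) ε fun v => PP (c k) (c k') (σ v)) / L ^ 2 := by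
        have hLn : L ≠ 0 := h2.ne'
        rw [eq_div_iff (pow_ne_zero 2 hLn), mul_left_comm A, mul_assoc]
        congr 1
        rw [Finset.sum_mul, Finset.mul_sum]
        refine Finset.sum_congr rfl fun k _ => ?_
        rw [Finset.sum_mul, Finset.mul_sum]
        refine Finset.sum_congr rfl fun k' _ => ?_
        field_simp
      rw [e3, div_pow]
      refine div_le_div_of_nonneg_right (h7.trans ?_) (by positivity)
      exact mul_le_mul_of_nonneg_left h6 hone.le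
    rw [e1]
    refine h8.trans ?_
    have e4 : ∑ k ∈ S, a k ^ 2 * g₀ = ∑ k ∈ S, ∑ k' ∈ S, (a k * a k') *
        (if k = k' then g₀ else 0) := by
      refine Finset.sum_congr rfl fun k hk => ?_
      have e5 : ∀ k', (a k * a k') * (if k = k' then g₀ else 0) =
          if k = k' then (a k * a k') * g₀ else 0 := by
        intro k'
        split_ifs <;> simp
      rw [Finset.sum_congr rfl fun k' _ => e5 k', Finset.sum_ite_eq, if_pos hk]
      ring
    rw [e4]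
    have h9 : s ^ 2 * ∑ k ∈ S, ∑ k' ∈ S, (a k * a k') *
        ((A / L) * ((EP (nm K) ε fun v => PP (c k) (c k') (σ v)) / L)) -
        s ^ 2 * ∑ k ∈ S, ∑ k' ∈ S, (a k * a k') * (if k = k' then g₀ else 0) ≤
        s ^ 2 * ∑ k ∈ S, ∑ k' ∈ S, C ^ 2 * |(A / L) *
          ((EP (nm K) ε fun v => PP (c k) (c k') (σ v)) / L) - if k = k' then g₀ else 0| := by
      rw [← mul_sub, ← Finset.sum_sub_distrib]
      refine mul_le_mul_of_nonneg_left (Finset.sum_le_sum fun k hk => ?_) (sq_nonneg _)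
      rw [← Finset.sum_sub_distrib]
      refine Finset.sum_le_sum fun k' hk' => ?_
      rw [← mul_sub]
      refine (le_abs_self _).trans ?_
      rw [abs_mul]
      refine mul_le_mul_of_nonneg_right ?_ (abs_nonneg _)
      rw [abs_mul, sq]
      exact mul_le_mul (ha k hk) (ha k' hk') (abs_nonneg _) ((abs_nonneg _).trans (ha k hk))
    linarith) (η := η / 2) (by positivity)
  -- transfer
  have hx : ∀ k ∈ S, Tendsto (fun ε : ℝ => y k ε - (size (2 * m) (B k) ε - (c k).rank ρ - ref ε))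
      (𝓝[>] 0) (𝓝 0) := by
    intro k hk
    have h1 := (size_form hmd hX hV hσ (hc k hk) (hB k hk)).2.sub href
    rw [sub_zero] at h1
    refine h1.congr' ?_
    filter_upwards [self_mem_nhdsWithin] with ε hε
    have hε' : (0 : ℝ) < ε := hε
    rw [hy]
    simp only
    rw [hE]
    simp only
    rw [EP_add hN hε' (B := s) (B' := s) (fun v => abs_DD v _) (fun v => by
      rw [abs_mul, abs_neg, abs_one, one_mul]
      exact abs_D0 v), EP_const_mul]
    ring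
  -- squares
  have hsq : ∀ᶠ ε : ℝ in 𝓝[>] 0, ∑ k ∈ S,
      ((size (2 * m) (B k) ε - (c k).rank ρ - ref ε) ^ 2 - y k ε ^ 2) ≤ η / 2 := by
    have hlim : Tendsto (fun ε : ℝ => ∑ k ∈ S,
        (|y k ε - (size (2 * m) (B k) ε - (c k).rank ρ - ref ε)| *
          (|y k ε - (size (2 * m) (B k) ε - (c k).rank ρ - ref ε)| + 2 * (2 * (2 * s)))))
        (𝓝[>] 0) (𝓝 0) := by
      have h0 : Tendsto (fun ε : ℝ => ∑ k ∈ S,
        (|y k ε - (size (2 * m) (B k) ε - (c k).rank ρ - ref ε)| *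
          (|y k ε - (size (2 * m) (B k) ε - (c k).rank ρ - ref ε)| + 2 * (2 * (2 * s)))))
        (𝓝[>] 0) (𝓝 (∑ k ∈ S, (|(0 : ℝ)| * (|(0 : ℝ)| + 2 * (2 * (2 * s)))))) :=
        tendsto_finsetSum _ fun k hk => (hx k hk).abs.mul ((hx k hk).abs.add_const _)
      refine h0.trans (le_of_eq ?_)
      simp
    filter_upwards [hlim.eventually_lt_const (by positivity : 0 < η / 2), hyb] with ε h1 h2
    refine le_trans (Finset.sum_le_sum fun k hk => ?_) h1.le
    set x := size (2 * m) (B k) ε - (c k).rank ρ - ref ε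
    set z := y k ε
    have hz := h2 k hk
    have e1 : x ^ 2 - z ^ 2 = (z - x) * ((z - x) - 2 * z) := by ring
    rw [e1]
    refine (le_abs_self _).trans ?_
    rw [abs_mul]
    refine mul_le_mul_of_nonneg_left ((abs_sub _ _).trans ?_) (abs_nonneg _)
    rw [abs_mul, abs_two]
    exact add_le_add_right (mul_le_mul_of_nonneg_left hz (by norm_num)) _
  filter_upwards [key, hsq] with ε h1 h2
  rw [Finset.sum_sub_distrib] at h2
  have h3 : s ^ 2 * g₀ = g₀ * s ^ 2 := mul_comm _ _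
  linarith

end

end Pool.Agent.K7.H53.FM
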