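import Pool.Agent.W353.TD.Defs

/-!
# Forms of a variety with a linear action of a finite group scheme: definitions

`K` is a number field, `X` a projective variety over `K`, given by homogeneous polynomials, and `G` a
finite group scheme over `K` acting linearly on `X`: the group `G(K̄)` is the finite group `G`, the
absolute Galois group acts on it by automorphisms, and the matrices of the elements of `G` have
algebraic integers as coefficients.
-/

set_option autoImplicit false

namespace Pool.Agent.K7.H53.FM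

open NumberField IsDedekindDomain Filter Topology Polynomial
open Pool.Agent.W353.EF (IsFrobenius IsEulerSystem LFun size)
open Pool.Agent.W353.TD (eigenvalues)

/-- A linear action of a finite group scheme over `K`: the group `G` of its points over the algebraic
closure, the continuous action `θ` of the absolute Galois group on `G`, and a homomorphism `A` from
`G` to the matrices over the ring of all algebraic integers with `σ(A(g)) = A(σ(g))`. -/
structure LinearAction (K : Type) [Field K] [NumberField K] (l : ℕ) (G : Type) [Group G] where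
  /-- the action of the absolute Galois group on `G` -/
  θ : Gal(AlgebraicClosure K/K) →* MulAut G
  /-- the matrices -/
  A : G →* Matrix (Fin l) (Fin l) (𝓞 (AlgebraicClosure K))
  gal : ∀ σ g, (A g).map (fun x => σ • x) = A (θ σ g)
  cont : ∃ U : Subgroup Gal(AlgebraicClosure K/K), IsOpen (U : Set Gal(AlgebraicClosure K/K)) ∧
    ∀ u ∈ U, θ u = 1

section
variable {K : Type} [Field K] [NumberField K] {l : ℕ} {G : Type} [Group G]

/-- The group acts on the variety `X`: it maps points over the algebraic closure to points. -/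
def LinearAction.ActsOn (𝒜 : LinearAction K l G) (X : Set (MvPolynomial (Fin l) (𝓞 K))) : Prop :=
  ∀ (g : G) (u : Fin l → AlgebraicClosure K), (∀ f ∈ X, MvPolynomial.aeval u f = 0) →
    ∀ f ∈ X, MvPolynomial.aeval
      (((𝒜.A g).map (algebraMap (𝓞 (AlgebraicClosure K)) (AlgebraicClosure K))).mulVec u) f = 0

/-- A continuous cocycle `c(στ) = c(σ) σ(c(τ))` with values in `G`; if the Galois group acts trivially
on `G`, this is a continuous homomorphism. -/
structure Cocycle (𝒜 : LinearAction K l G) where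
  /-- the values -/
  c : Gal(AlgebraicClosure K/K) → G
  mul : ∀ σ τ, c (σ * τ) = c σ * 𝒜.θ σ (c τ)
  cont : ∃ U : Subgroup Gal(AlgebraicClosure K/K), IsOpen (U : Set Gal(AlgebraicClosure K/K)) ∧
    ∀ u ∈ U, c u = 1

/-- The variety `X'` is the form of `X` given by the cocycle: `X' = φ(X)` for an invertible matrix `φ`
over the algebraic closure (with algebraic integers as coefficients, which is no restriction) such that
`c(σ) = φ⁻¹ σ(φ)` for all `σ`.  Such a matrix exists by Hilbert's theorem 90, and `X'` is unique up to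
isomorphisms over `K`. -/
def Cocycle.IsForm {𝒜 : LinearAction K l G} (c : Cocycle 𝒜)
    (X X' : Set (MvPolynomial (Fin l) (𝓞 K))) : Prop :=
  ∃ φ : Matrix (Fin l) (Fin l) (𝓞 (AlgebraicClosure K)), φ.det ≠ 0 ∧
    (∀ σ, φ.map (fun x => σ • x) = φ * 𝒜.A (c.c σ)) ∧
    ∀ u : Fin l → AlgebraicClosure K, (∀ f ∈ X, MvPolynomial.aeval u f = 0) ↔
      ∀ f ∈ X', MvPolynomial.aeval
        ((φ.map (algebraMap (𝓞 (AlgebraicClosure K)) (AlgebraicClosure K))).mulVec u) f = 0

/-- The kernel of the action of the Galois group on `G`: the absolute Galois group of the smallest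
field over which `G` is constant. -/
noncomputable def LinearAction.ker (𝒜 : LinearAction K l G) : Subgroup Gal(AlgebraicClosure K/K) := 𝒜.θ.ker

/-- Two cocycles are independent: over the field where `G` is constant they are homomorphisms, and
together they are a surjective homomorphism to `G × G`. -/
def Independent {𝒜 : LinearAction K l G} (c c' : Cocycle 𝒜) : Prop :=
  ∀ g g' : G, ∃ σ ∈ 𝒜.ker, c.c σ = g ∧ c'.c σ = g'

/-- The number of the orbits of the absolute Galois group on the set of the conjugacy classes of `G`: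
the number of the classes for the relation `y = g σ(x) g⁻¹`. -/
noncomputable def LinearAction.classes (𝒜 : LinearAction K l G) : ℕ :=
  Nat.card (Quot fun x y : G => ∃ (g : G) (σ : Gal(AlgebraicClosure K/K)), y = g * 𝒜.θ σ x * g⁻¹)

/-- `Q` is a maximal ideal of the ring of all algebraic integers above `v`, and `σ` an arithmetic
Frobenius element for `Q`: `σ x ≡ x ^ q_v` modulo `Q` for all `x`. -/
def IsFrobAt (v : HeightOneSpectrum (𝓞 K)) (Q : Ideal (𝓞 (AlgebraicClosure K)))
    (σ : Gal(AlgebraicClosure K/K)) : Prop :=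
  Q.IsMaximal ∧ Q.comap (algebraMap (𝓞 K) (𝓞 (AlgebraicClosure K))) = v.asIdeal ∧
    ∀ x : 𝓞 (AlgebraicClosure K), σ • x - x ^ Ideal.absNorm v.asIdeal ∈ Q

/-- `(r - 1)` times the number of the points `y` of `X` modulo `Q` with `g y^(r) = y`, where `y^(r)` is
the point with the `r`-th powers of the coordinates of `y`: the number of the vectors `y ≠ 0` with
`g y^(r) = y` and `f(y) = 0` for all `f` in `X`. -/
noncomputable def LinearAction.fix (𝒜 : LinearAction K l G)
    (X : Set (MvPolynomial (Fin l) (𝓞 K))) (Q : Ideal (𝓞 (AlgebraicClosure K))) (g : G)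
    (r : ℕ) : ℕ :=
  Nat.card {y : Fin l → 𝓞 (AlgebraicClosure K) ⧸ Q // y ≠ 0 ∧
    (∀ f ∈ X, MvPolynomial.eval₂ ((Ideal.Quotient.mk Q).comp
      (algebraMap (𝓞 K) (𝓞 (AlgebraicClosure K)))) y f = 0) ∧
    ((𝒜.A g).map (Ideal.Quotient.mk Q)).mulVec (fun j => y j ^ r) = y}

/-- The product `g σ(g) ⋯ σ^(e-1)(g)`; it is `c(σ^e)` if `g = c(σ)` for a cocycle `c`. -/
noncomputable def LinearAction.npow (𝒜 : LinearAction K l G) (σ : Gal(AlgebraicClosure K/K)) (g : G) : ℕ → G
  | 0 => 1
  | e + 1 => g * 𝒜.θ σ (𝒜.npow σ g e)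

/-- `α_1, …, α_N` are the eigenvalues of `g ∘ Frob`, on `H^i(X)`, for the Frobenius at `Q` above
`v`: there are finite multisets `β_k` of complex numbers of absolute value `q_v^{k/2}`,
`k = 0, …, 2d`, with `β_i = {α_1, …, α_N}`, such that for all `e ≥ 1` the number of the fixed points of
`(g ∘ Frob)^e` is `∑ (-1)^k ∑_{z ∈ β_k} z^e`.  By the theorem of Deligne (for the form of the
reduction of `X` over the residue field given by `g`) such `β_k` exist at almost all primes if `X` is
smooth, with `N` the `i`-th Betti number of `X`; they are unique. -/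
def LinearAction.IsEigen (𝒜 : LinearAction K l G) (X : Set (MvPolynomial (Fin l) (𝓞 K)))
    (d i : ℕ) (v : HeightOneSpectrum (𝓞 K)) (Q : Ideal (𝓞 (AlgebraicClosure K)))
    (σ : Gal(AlgebraicClosure K/K)) (g : G) {N : ℕ} (α : Fin N → ℂ) : Prop :=
  ∃ β : ℕ → Multiset ℂ, β i = Finset.univ.val.map α ∧
    (∀ k, ∀ z ∈ β k, ‖z‖ = (Ideal.absNorm v.asIdeal : ℝ) ^ ((k : ℝ) / 2)) ∧
    ∀ e : ℕ, 1 ≤ e → (𝒜.fix X Q (𝒜.npow σ g e) (Ideal.absNorm v.asIdeal ^ e) : ℂ) =
      ((Ideal.absNorm v.asIdeal : ℂ) ^ e - 1) *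
        ∑ k ∈ Finset.range (2 * d + 1), (-1 : ℂ) ^ k * ((β k).map (fun z => z ^ e)).sum

variable {V : Type} [AddCommGroup V] [Module ℚ V]

/-- `V`, with the action `ρ` of `G` and the absolute Galois group, is a part of `H^{2m}(X)(m)`: the
action of the Galois group is trivial on an open subgroup, and for almost all primes `v`, all Frobenius
elements `σ` for primes `Q` above `v` and all `g ∈ G` there are eigenvalues of `g ∘ Frob` on
`H^{2m}(X)`, which contain those on `V(-m)`.  The main example is `V = A^m(X) ⊗ ℚ` for the group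
`A^m(X)` of the classes, up to homological equivalence, of the algebraic cycles of codimension `m`
defined over the algebraic closure; for `m = 1` it is `NS(X) ⊗ ℚ`. -/
def IsPart [FiniteDimensional ℚ V] (𝒜 : LinearAction K l G)
    (X : Set (MvPolynomial (Fin l) (𝓞 K))) (d m N : ℕ)
    (ρ : Representation ℚ (G ⋊[𝒜.θ] Gal(AlgebraicClosure K/K)) V) : Prop :=
  (∃ U : Subgroup Gal(AlgebraicClosure K/K), IsOpen (U : Set Gal(AlgebraicClosure K/K)) ∧
    ∀ u ∈ U, ρ (SemidirectProduct.inr u) = 1) ∧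
  ∀ᶠ v in cofinite, ∀ Q σ, IsFrobAt v Q σ → ∀ g : G, ∃ α : Fin N → ℂ,
    𝒜.IsEigen X d (2 * m) v Q σ g α ∧
      (eigenvalues (ρ ⟨g, σ⟩⁻¹)).map (fun z => (Ideal.absNorm v.asIdeal : ℂ) ^ m * z) ≤
        Finset.univ.val.map α

/-- The rank of the group of the classes of cycles defined over `K` on the form `X'` of `X` given by the
cocycle: the dimension of the space of the elements of `V` fixed by `(c(σ), σ)` for all `σ`; indeed
`σ(φ(Z)) = φ(c(σ) σ(Z))`. -/
noncomputable def Cocycle.rank {𝒜 : LinearAction K l G} (c : Cocycle 𝒜)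
    (ρ : Representation ℚ (G ⋊[𝒜.θ] Gal(AlgebraicClosure K/K)) V) : ℕ :=
  Module.finrank ℚ ({ carrier := {x : V | ∀ σ, ρ ⟨c.c σ, σ⟩ x = x}
                      add_mem' := fun {x y} hx hy σ => by rw [map_add, hx σ, hy σ]
                      zero_mem' := fun σ => map_zero _
                      smul_mem' := fun a x hx σ => by rw [map_smul, hx σ] } : Submodule ℚ V)

/-- The rank of the group of the classes of cycles defined over `K` on `X / G`: the dimension of the
space of the elements of `V` fixed by `G` and by the absolute Galois group. -/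
noncomputable def quotientRank (𝒜 : LinearAction K l G)
    (ρ : Representation ℚ (G ⋊[𝒜.θ] Gal(AlgebraicClosure K/K)) V) : ℕ :=
  Module.finrank ℚ (Representation.invariants ρ)

/-- The polynomials `B v` are the Euler factors of `L(H^i(X)^G, s)`, the `L`-function of `H^i` of the
quotient `X / G`: for almost all primes `v` of `K`, `B_v(z) = ∏ (1 - γ_j z)` for complex numbers
`γ_1, …, γ_M` of absolute value `q_v^{i/2}` whose sum is the trace of Frobenius on `H^i(X)^G`, which is
the mean value over `g ∈ G` of the trace of `g ∘ Frob` on `H^i(X)`.  At the other primes `B v` is an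
arbitrary polynomial, and no factor `1 / B_v(q_v^{-s})` has a pole at `s = i/2 + 1`. -/
def IsQuotientSystem (𝒜 : LinearAction K l G) (X : Set (MvPolynomial (Fin l) (𝓞 K)))
    (d i N M : ℕ) (B : HeightOneSpectrum (𝓞 K) → ℂ[X]) : Prop :=
  (∀ᶠ v in cofinite, ∃ γ : Fin M → ℂ,
    (∀ j, ‖γ j‖ = (Ideal.absNorm v.asIdeal : ℝ) ^ ((i : ℝ) / 2)) ∧
    (∀ Q σ, IsFrobAt v Q σ → ∀ α : G → Fin N → ℂ, (∀ g, 𝒜.IsEigen X d i v Q σ g (α g)) →
      ∑ j, γ j = (Nat.card G : ℂ)⁻¹ * ∑ᶠ g : G, ∑ j, α g j) ∧
    ∀ z : ℂ, (B v).eval z = ∏ j, (1 - γ j * z)) ∧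
  ∀ v, (B v).eval ((Ideal.absNorm v.asIdeal : ℂ) ^ (-((i : ℂ) / 2 + 1))) ≠ 0

/-- The cohomology `H^{2m}(X)^G` of the quotient `X / G` consists of classes in `V`: for almost all
primes the trace of Frobenius on `H^{2m}(X)^G` (the mean value over `g ∈ G` of the trace of `g ∘ Frob`)
is its trace on `V^G(-m)`.  For `m = 1` and `V = NS(X) ⊗ ℚ` this holds for example if `X` is a surface
and `X / G` is a rational surface over the algebraic closure. -/
def QuotientAlgebraic [FiniteDimensional ℚ V] (𝒜 : LinearAction K l G)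
    (X : Set (MvPolynomial (Fin l) (𝓞 K))) (d m N : ℕ)
    (ρ : Representation ℚ (G ⋊[𝒜.θ] Gal(AlgebraicClosure K/K)) V) : Prop :=
  ∀ᶠ v in cofinite, ∀ Q σ, IsFrobAt v Q σ → ∀ α : G → Fin N → ℂ,
    (∀ g, 𝒜.IsEigen X d (2 * m) v Q σ g (α g)) →
    (Nat.card G : ℂ)⁻¹ * ∑ᶠ g : G, ∑ j, α g j = (Ideal.absNorm v.asIdeal : ℂ) ^ m *
      ((Nat.card G : ℂ)⁻¹ * ∑ᶠ g : G, ((LinearMap.trace ℚ V (ρ ⟨g, σ⟩⁻¹) : ℚ) : ℂ))

/-- The cocycle is surjective over the field `M`: every element of `G` is a value of `c` at an element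
of the absolute Galois group of `M`. -/
def Cocycle.SurjectiveOver {𝒜 : LinearAction K l G} (c : Cocycle 𝒜)
    (M : IntermediateField K (AlgebraicClosure K)) : Prop :=
  ∀ g : G, ∃ σ ∈ M.fixingSubgroup, c.c σ = g

/-- Let `h` be the number of the orbits of the absolute Galois group on the conjugacy classes of `G`, and
`s = N - dim V`.  For finitely many pairwise independent cocycles `c_k` (surjective over the field where
`G` is constant), the forms `X_k` of `X` given by them and
`x_k(ε) = log |L(H^{2m}(X_k), m + 1 + ε)| / log(1/ε) - rank_k`, where `rank_k` is the rank of the group of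
the classes of cycles of codimension `m` defined over `K` on `X_k`:
* for all `η > 0` and all small `ε > 0` the `L`-functions are not zero at `m + 1 + ε`, and
`∑ (x_k(ε) - ref(ε))² ≤ (h - 1) s² + η` (no continuation is assumed);
* if the `L`-functions have continuations of orders `r_k` at `m + 1` and `ref` has the limit `-δ₀`, then
`∑ (r_k + rank_k - δ₀)² ≤ (h - 1) s²`. -/
def SumOfSquares (𝒜 : LinearAction K l G) (X : Set (MvPolynomial (Fin l) (𝓞 K))) (d m N : ℕ)
    (ρ : Representation ℚ (G ⋊[𝒜.θ] Gal(AlgebraicClosure K/K)) V) (ref : ℝ → ℝ) : Prop :=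
  ∀ (κ : Type) [Fintype κ] (c : κ → Cocycle 𝒜) (X' : κ → Set (MvPolynomial (Fin l) (𝓞 K)))
    (B : κ → HeightOneSpectrum (𝓞 K) → ℂ[X]), (∀ k, ∀ g : G, ∃ σ ∈ 𝒜.ker, (c k).c σ = g) →
    (∀ k k', k ≠ k' → Independent (c k) (c k')) → (∀ k, (c k).IsForm X (X' k)) →
    (∀ k, IsEulerSystem (X' k) d (2 * m) N (B k)) →
    (∀ η : ℝ, 0 < η → ∀ᶠ ε : ℝ in 𝓝[>] 0,
      (∀ k, LFun (B k) (((2 * m : ℕ) : ℂ) / 2 + 1 + ε) ≠ 0) ∧
      ∑ k, (size (2 * m) (B k) ε - (c k).rank ρ - ref ε) ^ 2 ≤
        ((𝒜.classes : ℝ) - 1) * ((N - Module.finrank ℚ V : ℕ) : ℝ) ^ 2 + η) ∧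
    ∀ (δ₀ : ℤ) (r : κ → ℤ), Tendsto ref (𝓝[>] 0) (𝓝 (-(δ₀ : ℝ))) →
      (∀ k, Pool.Agent.W353.EF.HasOrder (2 * m) (B k) (r k)) →
      ∑ k, (r k + (c k).rank ρ - δ₀) ^ 2 ≤
        ((𝒜.classes : ℤ) - 1) * ((N - Module.finrank ℚ V : ℕ) : ℤ) ^ 2

/-- With `h` and `s` as above: there is a finite Galois extension `M` of `K`, of degree at most
`|θ(Gal)| |G|^((h - 1) s²)`, such that for every cocycle `c` which is surjective over `M`, the form `X'`
of `X` given by it and `x(ε) = log |L(H^{2m}(X'), m + 1 + ε)| / log(1/ε) - rank`: the `L`-function is not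
zero at `m + 1 + ε` for small `ε > 0`, there are arbitrarily small `ε > 0` with `|x(ε) - ref(ε)| < 1` (no
continuation is assumed), and if it has a continuation of order `r` at `m + 1` and `ref` has the limit
`-δ₀`, then `r = δ₀ - rank`. -/
def OneFieldGoverns (𝒜 : LinearAction K l G) (X : Set (MvPolynomial (Fin l) (𝓞 K))) (d m N : ℕ)
    (ρ : Representation ℚ (G ⋊[𝒜.θ] Gal(AlgebraicClosure K/K)) V) (ref : ℝ → ℝ) : Prop :=
  ∃ M : IntermediateField K (AlgebraicClosure K), FiniteDimensional K M ∧ IsGalois K M ∧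
    Module.finrank K M ≤ Nat.card 𝒜.θ.range *
      Nat.card G ^ ((𝒜.classes - 1) * (N - Module.finrank ℚ V) ^ 2) ∧
    ∀ (c : Cocycle 𝒜) (X' : Set (MvPolynomial (Fin l) (𝓞 K)))
      (B : HeightOneSpectrum (𝓞 K) → ℂ[X]), c.SurjectiveOver M → c.IsForm X X' →
      IsEulerSystem X' d (2 * m) N B →
      (∀ᶠ ε : ℝ in 𝓝[>] 0, LFun B (((2 * m : ℕ) : ℂ) / 2 + 1 + ε) ≠ 0) ∧
      (∃ᶠ ε : ℝ in 𝓝[>] 0, |size (2 * m) B ε - c.rank ρ - ref ε| < 1) ∧
      ∀ δ₀ r : ℤ, Tendsto ref (𝓝[>] 0) (𝓝 (-(δ₀ : ℝ))) →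
        Pool.Agent.W353.EF.HasOrder (2 * m) B r → r = δ₀ - c.rank ρ

end

end Pool.Agent.K7.H53.FM
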