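import Pool.Agent.K7.H53.FM.Spread
import Mathlib.FieldTheory.Finite.Basic

/-! The points of a form modulo a prime. -/

set_option autoImplicit false

namespace Pool.Agent.K7.H53.FM

open NumberField IsDedekindDomain Filter Topology MvPolynomial
open Pool.Agent.W353.EF (IsFrobenius IsEulerSystem cone)

section
variable {K : Type} [Field K] [NumberField K]

/-- the residue fields are algebraically closed -/
theorem residue_closed (Q : Ideal (RR K)) [hQ : Q.IsMaximal] :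
    let := Ideal.Quotient.field Q
    IsAlgClosed (RR K ⧸ Q) := by
  let := Ideal.Quotient.field Q
  refine IsAlgClosed.of_exists_root _ fun p hp hirr => ?_
  have hl : p ∈ Polynomial.lifts (Ideal.Quotient.mk Q) := by
    rw [Polynomial.lifts_iff_coeff_lifts]
    intro n
    exact Ideal.Quotient.mk_surjective _
  obtain ⟨q, hq, hdeg, hqm⟩ := Polynomial.lifts_and_natDegree_eq_and_monic hl hp
  have hqd : q.natDegree ≠ 0 := by
    rw [hdeg]
    exact (Polynomial.Monic.natDegree_pos_of_not_isUnit hp hirr.not_isUnit).ne'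
  obtain ⟨x, hx⟩ := IsAlgClosed.exists_root (q.map (algebraMap (RR K) (AlgebraicClosure K))) (by
    rw [Polynomial.degree_map_eq_of_injective rr_inj]
    intro h
    exact hqd (Polynomial.natDegree_eq_zero_iff_degree_le_zero.2 h.le))
  have hxint : IsIntegral ℤ x := by
    have h1 : IsIntegral (RR K) x := ⟨q, hqm, by
      rw [← Polynomial.eval_map]
      exact hx⟩
    have : Algebra.IsIntegral ℤ (RR K) := inferInstance
    exact isIntegral_trans (R := ℤ) (A := RR K) x h1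
  let x' : RR K := ⟨x, hxint⟩
  have hx' : q.eval x' = 0 := by
    apply rr_inj
    rw [map_zero, ← Polynomial.eval₂_at_apply, ← Polynomial.eval_map]
    exact hx
  refine ⟨Ideal.Quotient.mk Q x', ?_⟩
  rw [← hq, Polynomial.eval_map, Polynomial.eval₂_at_apply, hx', map_zero]

/-- counting over a finite field inside an algebraically closed field -/
theorem count_fix {l : ℕ} {F κ : Type} [Field F] [IsAlgClosed F] [Field κ] [Finite κ]
    {r : ℕ} (hr : Nat.card κ = r) (φ : 𝓞 K →+* κ) (ψ : 𝓞 K →+* F)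
    (hφ : RingHom.ker φ = RingHom.ker ψ) (hm : (RingHom.ker φ).IsMaximal)
    (X : Set (MvPolynomial (Fin l) (𝓞 K))) :
    cone X φ = Nat.card {u : Fin l → F // u ≠ 0 ∧ (∀ f ∈ X, eval₂ ψ u f = 0) ∧
      ∀ i, u i ^ r = u i} := by
  classical
  let _ : Fintype κ := Fintype.ofFinite κ
  have hcard : Fintype.card κ = r := by rw [← Nat.card_eq_fintype_card, hr]
  let := Ideal.Quotient.field (RingHom.ker φ)
  let a1 : Algebra (𝓞 K ⧸ RingHom.ker φ) κ := (RingHom.kerLift φ).toAlgebra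
  let a2 : Algebra (𝓞 K ⧸ RingHom.ker φ) F :=
    (Ideal.Quotient.lift (RingHom.ker φ) ψ (fun a ha => by
      rw [hφ] at ha
      exact ha)).toAlgebra
  have : Algebra.IsAlgebraic (𝓞 K ⧸ RingHom.ker φ) κ := by
    have : Module.Finite (𝓞 K ⧸ RingHom.ker φ) κ := Module.Finite.of_finite
    exact Algebra.IsAlgebraic.of_finite _ _
  let j : κ →ₐ[𝓞 K ⧸ RingHom.ker φ] F := IsAlgClosed.lift
  have hj : (j : κ →+* F).comp φ = ψ := by
    ext x
    have h1 : φ x = algebraMap (𝓞 K ⧸ RingHom.ker φ) κ (Ideal.Quotient.mk _ x) := rfl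
    have h2 : ψ x = algebraMap (𝓞 K ⧸ RingHom.ker φ) F (Ideal.Quotient.mk _ x) := rfl
    rw [RingHom.comp_apply, h1, h2]
    exact j.commutes _
  have hjinj : Function.Injective j := (j : κ →+* F).injective
  have hr1 : 1 < r := by
    rw [← hcard]
    exact Fintype.one_lt_card
  -- the image
  have himg : ∀ x : F, x ^ r = x → ∃ z : κ, j z = x := by
    intro x hx
    set P : Polynomial F := Polynomial.X ^ r - Polynomial.X with hP
    have hPd : P.natDegree = r := FiniteField.X_pow_card_sub_X_natDegree_eq F hr1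
    have hP0 : P ≠ 0 := FiniteField.X_pow_card_sub_X_ne_zero F hr1
    have h1 : (Finset.univ.map ⟨j, hjinj⟩ : Finset F) ⊆ P.roots.toFinset := by
      intro y hy
      obtain ⟨z, -, rfl⟩ := Finset.mem_map.1 hy
      rw [Multiset.mem_toFinset, Polynomial.mem_roots hP0, Polynomial.IsRoot.def, hP,
        Polynomial.eval_sub, Polynomial.eval_pow, Polynomial.eval_X, sub_eq_zero]
      show (j z) ^ r = j z
      rw [← map_pow, ← hcard, FiniteField.pow_card]
    have h2 : P.roots.toFinset.card ≤ (Finset.univ.map ⟨j, hjinj⟩ : Finset F).card := by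
      rw [Finset.card_map, Finset.card_univ, hcard, ← hPd]
      exact (Multiset.toFinset_card_le _).trans (Polynomial.card_roots' P)
    have h3 := Finset.eq_of_subset_of_card_le h1 h2
    have h4 : x ∈ P.roots.toFinset := by
      rw [Multiset.mem_toFinset, Polynomial.mem_roots hP0, Polynomial.IsRoot.def, hP,
        Polynomial.eval_sub, Polynomial.eval_pow, Polynomial.eval_X, sub_eq_zero]
      exact hx
    rw [← h3] at h4
    obtain ⟨z, -, hz⟩ := Finset.mem_map.1 h4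
    exact ⟨z, hz⟩
  choose! inv hinv using himg
  have hpc : ∀ z : κ, z ^ r = z := by
    intro z
    rw [← hcard]
    exact FiniteField.pow_card z
  have hev : ∀ (z : Fin l → κ) (f : MvPolynomial (Fin l) (𝓞 K)),
      eval₂ ψ (fun i => j (z i)) f = j (eval₂ φ z f) := by
    intro z f
    have h1 := hom_eval₂ f φ (j : κ →+* F) z
    rw [hj] at h1
    exact h1.symm
  unfold cone
  refine Nat.card_congr
    { toFun := fun z => ⟨fun i => j (z.1 i), ?_, ?_, ?_⟩
      invFun := fun u => ⟨fun i => inv (u.1 i), ?_, ?_⟩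
      left_inv := ?_
      right_inv := ?_ }
  · intro h
    apply z.2.1
    funext i
    have h1 := congrFun h i
    simp only [Pi.zero_apply] at h1 ⊢
    exact (map_eq_zero (j : κ →+* F)).1 h1
  · intro f hf
    rw [hev, z.2.2 f hf, map_zero]
  · intro i
    show (j (z.1 i)) ^ r = j (z.1 i)
    rw [← map_pow, hpc]
  · intro h
    apply u.2.1
    funext i
    rw [← hinv (u.1 i) (u.2.2.2 i), show inv (u.1 i) = 0 from congrFun h i, map_zero]
    rfl
  · intro f hf
    apply hjinj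
    rw [← hev, map_zero]
    have h1 : (fun i => j (inv (u.1 i))) = u.1 := funext fun i => hinv _ (u.2.2.2 i)
    rw [h1]
    exact u.2.2.1 f hf
  · intro z
    refine Subtype.ext (funext fun i => hjinj ?_)
    refine hinv _ ?_
    rw [← map_pow, hpc]
  · intro u
    exact Subtype.ext (funext fun i => hinv _ (u.2.2.2 i))

variable {l : ℕ} {G : Type} [Group G] {𝒜 : LinearAction K l G}

/-- powers of a Frobenius element -/
theorem IsFrobAt.pow {v : HeightOneSpectrum (𝓞 K)} {Q : Ideal (RR K)}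
    {σ : Gal(AlgebraicClosure K/K)} (h : IsFrobAt v Q σ) (e : ℕ) (x : RR K) :
    Ideal.Quotient.mk Q ((σ ^ e) • x) = Ideal.Quotient.mk Q x ^ (Ideal.absNorm v.asIdeal ^ e) := by
  induction e generalizing x with
  | zero => rw [pow_zero, one_smul, pow_zero, pow_one]
  | succ e ih =>
    have h1 : Ideal.Quotient.mk Q (σ • x) = Ideal.Quotient.mk Q x ^ Ideal.absNorm v.asIdeal := by
      rw [← map_pow, Ideal.Quotient.eq]
      exact h.2.2 x
    rw [pow_succ, mul_smul, ih, h1, ← pow_mul, pow_succ, mul_comm]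

theorem npow_conj (𝒜 : LinearAction K l G) (σ : Gal(AlgebraicClosure K/K)) (g h : G) (e : ℕ) :
    𝒜.npow σ (h * g * (𝒜.θ σ h)⁻¹) e = h * 𝒜.npow σ g e * (𝒜.θ (σ ^ e) h)⁻¹ := by
  induction e with
  | zero => simp [LinearAction.npow]
  | succ e ih =>
    rw [LinearAction.npow, ih, LinearAction.npow, map_mul, map_mul, map_inv]
    have e1 : 𝒜.θ (σ ^ (e + 1)) h = 𝒜.θ σ (𝒜.θ (σ ^ e) h) := by
      rw [pow_succ', map_mul]
      rfl
    rw [e1]
    group

theorem Cocycle.one (c : Cocycle 𝒜) : c.c 1 = 1 := by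
  have h := c.mul 1 1
  rw [mul_one, map_one, MulAut.one_apply] at h
  exact mul_eq_left.1 h.symm

theorem Cocycle.pow (c : Cocycle 𝒜) (σ : Gal(AlgebraicClosure K/K)) (e : ℕ) :
    c.c (σ ^ e) = 𝒜.npow σ (c.c σ) e := by
  induction e with
  | zero => rw [pow_zero, c.one]; rfl
  | succ e ih => rw [pow_succ', c.mul, ih]; rfl

/-- the power map -/
theorem mulVec_pow {F : Type} [CommRing F] (p : ℕ) [Fact p.Prime] [CharP F p] (k : ℕ)
    (M : Matrix (Fin l) (Fin l) F) (y : Fin l → F) :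
    (fun i => (M.mulVec y) i ^ p ^ k) = (M.map fun x => x ^ p ^ k).mulVec fun j => y j ^ p ^ k := by
  funext i
  simp only [Matrix.mulVec, dotProduct, Matrix.map_apply]
  rw [sum_pow_char_pow]
  exact Finset.sum_congr rfl fun j _ => mul_pow _ _ _

/-- the norm of a prime is a power of the characteristic -/
theorem norm_pow_char (v : HeightOneSpectrum (𝓞 K)) (Q : Ideal (RR K)) [hQ : Q.IsMaximal]
    (hv : Q.comap (algebraMap (𝓞 K) (RR K)) = v.asIdeal) :
    ∃ (p k : ℕ), p.Prime ∧ CharP (RR K ⧸ Q) p ∧ Ideal.absNorm v.asIdeal = p ^ k := by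
  have hvm : v.asIdeal.IsMaximal := v.isMaximal
  let := Ideal.Quotient.field v.asIdeal
  let := Ideal.Quotient.field Q
  have : Finite (𝓞 K ⧸ v.asIdeal) := Ideal.finiteQuotientOfFreeOfNeBot _ v.ne_bot
  cases nonempty_fintype (𝓞 K ⧸ v.asIdeal)
  obtain ⟨p, hc⟩ := CharP.exists (𝓞 K ⧸ v.asIdeal)
  obtain ⟨k, hp, hk⟩ := FiniteField.card (𝓞 K ⧸ v.asIdeal) p
  refine ⟨p, k, hp, ?_, ?_⟩
  · let j : (𝓞 K ⧸ v.asIdeal) →+* (RR K ⧸ Q) :=
      Ideal.Quotient.lift v.asIdeal ((Ideal.Quotient.mk Q).comp (algebraMap (𝓞 K) (RR K)))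
        (fun a ha => by
          rw [← hv, Ideal.mem_comap] at ha
          rw [RingHom.comp_apply, Ideal.Quotient.eq_zero_iff_mem]
          exact ha)
    exact (RingHom.charP_iff j j.injective p).1 hc
  · rw [← hk, ← Nat.card_eq_fintype_card, Ideal.absNorm_apply, Submodule.cardQuot_apply]

/-- the action modulo a prime -/
theorem map_pow_A {v : HeightOneSpectrum (𝓞 K)} {Q : Ideal (RR K)}
    {σ : Gal(AlgebraicClosure K/K)} (h : IsFrobAt v Q σ) (e : ℕ) (g : G) :
    (((𝒜.A g).map (Ideal.Quotient.mk Q)).map fun x => x ^ (Ideal.absNorm v.asIdeal ^ e)) =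
      (𝒜.A (𝒜.θ (σ ^ e) g)).map (Ideal.Quotient.mk Q) := by
  rw [← 𝒜.gal]
  ext i j
  simp only [Matrix.map_apply]
  rw [h.pow]

/-- The action preserves the points modulo `Q`. -/
def Pres (𝒜 : LinearAction K l G) (X : Set (MvPolynomial (Fin l) (𝓞 K))) (Q : Ideal (RR K)) :
    Prop :=
  ∀ (g : G) (y : Fin l → RR K ⧸ Q),
    (∀ f ∈ X, eval₂ ((Ideal.Quotient.mk Q).comp (algebraMap (𝓞 K) (RR K))) y f = 0) →
    ∀ f ∈ X, eval₂ ((Ideal.Quotient.mk Q).comp (algebraMap (𝓞 K) (RR K)))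
      (((𝒜.A g).map (Ideal.Quotient.mk Q)).mulVec y) f = 0

theorem A_mulVec (Q : Ideal (RR K)) (g h : G) (y : Fin l → RR K ⧸ Q) :
    ((𝒜.A g).map (Ideal.Quotient.mk Q)).mulVec (((𝒜.A h).map (Ideal.Quotient.mk Q)).mulVec y) =
      ((𝒜.A (g * h)).map (Ideal.Quotient.mk Q)).mulVec y := by
  rw [Matrix.mulVec_mulVec, ← Matrix.map_mul, ← map_mul]

theorem A_one (Q : Ideal (RR K)) (y : Fin l → RR K ⧸ Q) :
    ((𝒜.A 1).map (Ideal.Quotient.mk Q)).mulVec y = y := by
  rw [map_one, Matrix.map_one _ (map_zero _) (map_one _), Matrix.one_mulVec]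

/-- the number of fixed points only depends on the twisted conjugacy class -/
theorem fix_conj {v : HeightOneSpectrum (𝓞 K)} {Q : Ideal (RR K)}
    {σ : Gal(AlgebraicClosure K/K)} (h : IsFrobAt v Q σ) {X : Set (MvPolynomial (Fin l) (𝓞 K))}
    (hX : Pres 𝒜 X Q) (e : ℕ) (g k : G) :
    𝒜.fix X Q (k * g * (𝒜.θ (σ ^ e) k)⁻¹) (Ideal.absNorm v.asIdeal ^ e) =
      𝒜.fix X Q g (Ideal.absNorm v.asIdeal ^ e) := by
  have hQm := h.1
  obtain ⟨p, n, hp, hc, hn⟩ := norm_pow_char v Q h.2.1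
  have : Fact p.Prime := ⟨hp⟩
  -- the map
  have key : ∀ (g k : G) (y : Fin l → RR K ⧸ Q), (y ≠ 0 ∧
      (∀ f ∈ X, MvPolynomial.eval₂ ((Ideal.Quotient.mk Q).comp (algebraMap (𝓞 K) (RR K))) y f = 0) ∧
      ((𝒜.A g).map (Ideal.Quotient.mk Q)).mulVec
        (fun j => y j ^ (Ideal.absNorm v.asIdeal ^ e)) = y) →
      ((((𝒜.A k).map (Ideal.Quotient.mk Q)).mulVec y) ≠ 0 ∧
      (∀ f ∈ X, MvPolynomial.eval₂ ((Ideal.Quotient.mk Q).comp (algebraMap (𝓞 K) (RR K)))
        (((𝒜.A k).map (Ideal.Quotient.mk Q)).mulVec y) f = 0) ∧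
      ((𝒜.A (k * g * (𝒜.θ (σ ^ e) k)⁻¹)).map (Ideal.Quotient.mk Q)).mulVec
        (fun j => (((𝒜.A k).map (Ideal.Quotient.mk Q)).mulVec y) j ^
          (Ideal.absNorm v.asIdeal ^ e)) = ((𝒜.A k).map (Ideal.Quotient.mk Q)).mulVec y) := by
    intro g k y hy
    refine ⟨fun h0 => hy.1 ?_, hX k y hy.2.1, ?_⟩
    · have h1 := A_mulVec (𝒜 := 𝒜) Q k⁻¹ k y
      rw [h0, Matrix.mulVec_zero, inv_mul_cancel, A_one] at h1
      exact h1.symm
    · have h1 := mulVec_pow p (n * e) ((𝒜.A k).map (Ideal.Quotient.mk Q)) y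
      rw [pow_mul, ← hn, map_pow_A h] at h1
      rw [h1, A_mulVec]
      have e1 : k * g * (𝒜.θ (σ ^ e) k)⁻¹ * 𝒜.θ (σ ^ e) k = k * g := by group
      rw [e1, ← A_mulVec, hy.2.2]
  unfold LinearAction.fix
  refine Nat.card_congr
    { toFun := fun y => ⟨((𝒜.A k⁻¹).map (Ideal.Quotient.mk Q)).mulVec y.1, ?_⟩
      invFun := fun y => ⟨((𝒜.A k).map (Ideal.Quotient.mk Q)).mulVec y.1, key g k y.1 y.2⟩
      left_inv := ?_
      right_inv := ?_ }
  · have h1 := key _ k⁻¹ y.1 y.2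
    have e1 : k⁻¹ * (k * g * (𝒜.θ (σ ^ e) k)⁻¹) * (𝒜.θ (σ ^ e) k⁻¹)⁻¹ = g := by
      rw [map_inv, inv_inv]
      group
    rw [e1] at h1
    exact h1
  · intro y
    refine Subtype.ext ?_
    show ((𝒜.A k).map (Ideal.Quotient.mk Q)).mulVec
      (((𝒜.A k⁻¹).map (Ideal.Quotient.mk Q)).mulVec y.1) = y.1
    rw [A_mulVec, mul_inv_cancel, A_one]
  · intro y
    refine Subtype.ext ?_
    show ((𝒜.A k⁻¹).map (Ideal.Quotient.mk Q)).mulVec
      (((𝒜.A k).map (Ideal.Quotient.mk Q)).mulVec y.1) = y.1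
    rw [A_mulVec, inv_mul_cancel, A_one]

/-- the eigenvalues only depend on the twisted conjugacy class -/
theorem isEigen_conj {v : HeightOneSpectrum (𝓞 K)} {Q : Ideal (RR K)}
    {σ : Gal(AlgebraicClosure K/K)} (h : IsFrobAt v Q σ) {X : Set (MvPolynomial (Fin l) (𝓞 K))}
    (hX : Pres 𝒜 X Q) {d i : ℕ} (g k : G) {N : ℕ} {α : Fin N → ℂ}
    (hα : 𝒜.IsEigen X d i v Q σ g α) : 𝒜.IsEigen X d i v Q σ (k * g * (𝒜.θ σ k)⁻¹) α := by
  obtain ⟨β, h1, h2, h3⟩ := hα
  refine ⟨β, h1, h2, fun e he => ?_⟩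
  rw [npow_conj, fix_conj h hX]
  exact h3 e he

/-- the action preserves the points modulo almost all primes -/
theorem pres_ae [Finite G] {X : Set (MvPolynomial (Fin l) (𝓞 K))} (hX : 𝒜.ActsOn X) :
    ∀ᶠ v : HeightOneSpectrum (𝓞 K) in cofinite, ∀ Q : Ideal (RR K), Q.IsMaximal →
      Q.comap (algebraMap (𝓞 K) (RR K)) = v.asIdeal → Pres 𝒜 X Q := by
  classical
  have hone : ∀ g : G, ∀ᶠ v : HeightOneSpectrum (𝓞 K) in cofinite, ∀ Q : Ideal (RR K),
      Q.IsMaximal → Q.comap (algebraMap (𝓞 K) (RR K)) = v.asIdeal → ∀ y : Fin l → RR K ⧸ Q,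
      (∀ f ∈ X, eval₂ ((Ideal.Quotient.mk Q).comp (algebraMap (𝓞 K) (RR K)))
        (((1 : Matrix (Fin l) (Fin l) (RR K)).map (Ideal.Quotient.mk Q)).mulVec y) f = 0) →
      ∀ f ∈ X, eval₂ ((Ideal.Quotient.mk Q).comp (algebraMap (𝓞 K) (RR K)))
        (((𝒜.A g).map (Ideal.Quotient.mk Q)).mulVec y) f = 0 := by
    intro g
    refine spread_comp X X 1 (𝒜.A g) fun u hu f hf => ?_
    rw [Matrix.map_one _ (map_zero _) (map_one _), Matrix.one_mulVec] at hu
    exact hX g u hu f hf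
  have hall := Filter.eventually_all.2 hone
  refine hall.mono fun v hv Q hQm hQ g y hy => ?_
  refine hv g Q hQm hQ y ?_
  rw [Matrix.map_one _ (map_zero _) (map_one _), Matrix.one_mulVec]
  exact hy

/-- **The points of a form modulo a prime.** -/
theorem form_cone {c : Cocycle 𝒜} {X X' : Set (MvPolynomial (Fin l) (𝓞 K))}
    (hc : c.IsForm X X') : ∀ᶠ v : HeightOneSpectrum (𝓞 K) in cofinite, ∀ Q σ,
      IsFrobAt v Q σ → ∀ (κ : Type) [Field κ] [Finite κ] (φ : 𝓞 K →+* κ) (e : ℕ),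
        RingHom.ker φ = v.asIdeal → Nat.card κ = Ideal.absNorm v.asIdeal ^ e →
        cone X' φ = 𝒜.fix X Q (𝒜.npow σ (c.c σ) e) (Ideal.absNorm v.asIdeal ^ e) := by
  classical
  obtain ⟨Φ, hdet, hgal, hpt⟩ := hc
  have ev1 := spread_comp X X' 1 Φ fun u hu f hf => by
    rw [Matrix.map_one _ (map_zero _) (map_one _), Matrix.one_mulVec] at hu
    exact (hpt u).1 hu f hf
  have ev2 := spread_comp X' X Φ 1 fun u hu f hf => by
    rw [Matrix.map_one _ (map_zero _) (map_one _), Matrix.one_mulVec]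
    exact (hpt u).2 hu f hf
  have ev3 := avoid Φ.det hdet
  filter_upwards [ev1, ev2, ev3] with v h1 h2 h3 Q σ hσ κ _ _ φ e hφ hcard
  have hQm := hσ.1
  have hQv := hσ.2.1
  let := Ideal.Quotient.field Q
  have hcl := residue_closed (K := K) Q
  obtain ⟨p, n, hp, hc, hn⟩ := norm_pow_char v Q hσ.2.1
  have : Fact p.Prime := ⟨hp⟩
  set ψ : 𝓞 K →+* RR K ⧸ Q := (Ideal.Quotient.mk Q).comp (algebraMap (𝓞 K) (RR K)) with hψ
  have hker : RingHom.ker ψ = v.asIdeal := by
    rw [hψ, ← RingHom.comap_ker, Ideal.mk_ker, hQv]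
  set r := Ideal.absNorm v.asIdeal ^ e with hr
  rw [count_fix hcard φ ψ (by rw [hφ, hker]) (by rw [hφ]; exact v.isMaximal) X']
  -- the matrix modulo `Q`
  set M : Matrix (Fin l) (Fin l) (RR K ⧸ Q) := Φ.map (Ideal.Quotient.mk Q) with hM
  have hMdet : IsUnit M.det := by
    rw [isUnit_iff_ne_zero, hM]
    have e1 : (Φ.map (Ideal.Quotient.mk Q)).det = Ideal.Quotient.mk Q Φ.det :=
      ((Ideal.Quotient.mk Q).map_det Φ).symm
    rw [e1, Ne, Ideal.Quotient.eq_zero_iff_mem]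
    exact h3 Q hQv
  have hMinv : M⁻¹ * M = 1 := Matrix.nonsing_inv_mul M hMdet
  have hMinv' : M * M⁻¹ = 1 := Matrix.mul_nonsing_inv M hMdet
  have hMr : (M.map fun x => x ^ r) = M * (𝒜.A (𝒜.npow σ (c.c σ) e)).map (Ideal.Quotient.mk Q) := by
    rw [← c.pow, hM, ← Matrix.map_mul, ← hgal]
    ext i j
    simp only [Matrix.map_apply]
    rw [hσ.pow]
  have hpow : ∀ y : Fin l → RR K ⧸ Q, (fun i => (M.mulVec y) i ^ r) =
      M.mulVec (((𝒜.A (𝒜.npow σ (c.c σ) e)).map (Ideal.Quotient.mk Q)).mulVec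
        fun j => y j ^ r) := by
    intro y
    have h4 := mulVec_pow p (n * e) M y
    rw [pow_mul, ← hn, ← hr, hMr] at h4
    rw [h4, Matrix.mulVec_mulVec]
  have hinj : ∀ y y' : Fin l → RR K ⧸ Q, M.mulVec y = M.mulVec y' → y = y' := by
    intro y y' h
    have h4 := congrArg (M⁻¹.mulVec) h
    rwa [Matrix.mulVec_mulVec, Matrix.mulVec_mulVec, hMinv, Matrix.one_mulVec,
      Matrix.one_mulVec] at h4
  have hMM : ∀ u : Fin l → RR K ⧸ Q, M.mulVec (M⁻¹.mulVec u) = u := by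
    intro u
    rw [Matrix.mulVec_mulVec, hMinv', Matrix.one_mulVec]
  unfold LinearAction.fix
  refine Nat.card_congr
    { toFun := fun u => ⟨M⁻¹.mulVec u.1, ?_, ?_, ?_⟩
      invFun := fun y => ⟨M.mulVec y.1, ?_, ?_, ?_⟩
      left_inv := ?_
      right_inv := ?_ }
  · intro h
    apply u.2.1
    rw [← hMM u.1, h, Matrix.mulVec_zero]
  · intro f hf
    have h4 := h2 Q hQm hQv (M⁻¹.mulVec u.1) (fun f hf => by
      rw [← hM, hMM]
      exact u.2.2.1 f hf) f hf
    rwa [Matrix.map_one _ (map_zero _) (map_one _), Matrix.one_mulVec] at h4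
  · apply hinj
    have h4 := hpow (M⁻¹.mulVec u.1)
    rw [← h4, hMM]
    exact funext u.2.2.2
  · intro h
    apply y.2.1
    exact hinj _ _ (by rw [h, Matrix.mulVec_zero])
  · intro f hf
    refine h1 Q hQm hQv y.1 (fun f hf => ?_) f hf
    rw [Matrix.map_one _ (map_zero _) (map_one _), Matrix.one_mulVec]
    exact y.2.2.1 f hf
  · intro i
    have h4 := congrFun (hpow y.1) i
    rw [y.2.2.2] at h4
    exact h4
  · intro u
    exact Subtype.ext (hMM u.1)
  · intro y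
    exact Subtype.ext (hinj _ _ (hMM _))

/-- **The eigenvalues for a form.** -/
theorem form_eigen {c : Cocycle 𝒜} {X X' : Set (MvPolynomial (Fin l) (𝓞 K))}
    (hc : c.IsForm X X') (d i : ℕ) : ∀ᶠ v : HeightOneSpectrum (𝓞 K) in cofinite, ∀ Q σ,
      IsFrobAt v Q σ → ∀ {N : ℕ} (α : Fin N → ℂ), IsFrobenius X' d i v α →
        𝒜.IsEigen X d i v Q σ (c.c σ) α := by
  refine (form_cone hc).mono fun v hv Q σ hσ N α hα => ?_
  obtain ⟨β, h1, h2, h3⟩ := hα
  refine ⟨β, h1, h2, fun e he => ?_⟩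
  obtain ⟨κ, _, _, φ, hk, hcard⟩ := Pool.Agent.W353.PV.exists_ext (F := K) v e (by omega)
  have h4 := h3 κ φ e hk hcard
  have h5 := hv Q σ hσ κ φ e hk hcard
  exact (congrArg (Nat.cast : ℕ → ℂ)
    (h5.symm.trans (congrArg (cone X') (RingHom.ext fun x => rfl)))).trans h4

end

end Pool.Agent.K7.H53.FM
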