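import Pool.Agent.K7.H53.FM.Core
import Pool.Agent.Y149.WR.Fin

/-! One field governs all forms. -/

set_option autoImplicit false

namespace Pool.Agent.K7.H53.FM

open Complex Filter Topology NumberField IsDedekindDomain Polynomial
open Pool.Agent.W540.BE (EP nm exists_isFrob NormSys normSys EP_const_mul)
open Pool.Agent.W401.Cheb
open Pool.Agent.H341R2 (lam lam_tendsto)
open Pool.Agent.W353.EF (IsFrobenius IsEulerSystem LFun size)
open Pool.Agent.Y722.EP (EP_fin)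

section
variable {K : Type} [Field K] [NumberField K] {l : ℕ} {G : Type} [Group G] [Fintype G]
  {𝒜 : LinearAction K l G} {X : Set (MvPolynomial (Fin l) (𝓞 K))} {d m N : ℕ}
  {V : Type} [AddCommGroup V] [Module ℚ V] [FiniteDimensional ℚ V]
  {ρ : Representation ℚ (G ⋊[𝒜.θ] Gal(AlgebraicClosure K/K)) V}
  {Q : HeightOneSpectrum (𝓞 K) → Ideal (𝓞 (AlgebraicClosure K))}
  {σ : HeightOneSpectrum (𝓞 K) → GK K}

/-- the quotient with algebraic cohomology -/
theorem ref_alg (hX : 𝒜.ActsOn X) (hV : IsPart 𝒜 X d m N ρ)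
    (hσ : ∀ v, IsFrobAt v (Q v) (σ v)) (hA : QuotientAlgebraic 𝒜 X d m N ρ) :
    IsRef 𝒜 X d m N ρ Q σ fun _ => 0 := by
  classical
  unfold IsRef
  simp only [sub_zero]
  refine EP_fin (B := ((N - Module.finrank ℚ V : ℕ) : ℝ)) (fun v => abs_D0 v) ?_
  filter_upwards [hA, good_ae hX hV hσ] with v h1 h2
  have h3 := h1 (Q v) (σ v) (hσ v) (fun g => al 𝒜 X d m N ρ v (Q v) (σ v) g)
    fun g => (al_spec 𝒜 X d m N ρ (h2.2 g)).1
  have hn0 : (Fintype.card G : ℝ) ≠ 0 := gcard_pos.ne'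
  have e : (Nat.card G : ℂ)⁻¹ = (((Fintype.card G : ℝ)⁻¹ : ℝ) : ℂ) := by
    rw [Nat.card_eq_fintype_card]
    push_cast
    rfl
  rw [e, finsum_eq_sum_of_fintype, finsum_eq_sum_of_fintype] at h3
  have h4 := congrArg Complex.re h3
  have e2 : (Ideal.absNorm v.asIdeal : ℂ) ^ m * ((((Fintype.card G : ℝ)⁻¹ : ℝ) : ℂ) *
      ∑ g : G, ((LinearMap.trace ℚ V (ρ ⟨g, σ v⟩⁻¹) : ℚ) : ℂ)) =
      (((Ideal.absNorm v.asIdeal : ℝ) ^ m * ((Fintype.card G : ℝ)⁻¹ *
        ∑ g : G, cv 𝒜 ρ ⟨g, σ v⟩) : ℝ) : ℂ) := by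
    unfold cv
    push_cast
    rfl
  rw [e2, Complex.ofReal_re, Complex.re_ofReal_mul, Complex.re_sum] at h4
  have hq : (0 : ℝ) < (Ideal.absNorm v.asIdeal : ℝ) ^ m := pow_pos (norm_pos v) m
  unfold D0 DD ff th
  simp only [if_pos h2]
  rw [Finset.sum_sub_distrib, ← Finset.sum_mul, mul_sub, ← mul_assoc, h4]
  field_simp
  ring

/-- exceptional forms -/
structure Exc (𝒜 : LinearAction K l G) (X : Set (MvPolynomial (Fin l) (𝓞 K))) (d m N : ℕ)
    (ρ : Representation ℚ (G ⋊[𝒜.θ] Gal(AlgebraicClosure K/K)) V) (ref : ℝ → ℝ) (δ : ℝ) where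
  c : Cocycle 𝒜
  X' : Set (MvPolynomial (Fin l) (𝓞 K))
  B : HeightOneSpectrum (𝓞 K) → ℂ[X]
  hs : Surj c
  hc : c.IsForm X X'
  hB : IsEulerSystem X' d (2 * m) N B
  hex : ∀ᶠ ε : ℝ in 𝓝[>] 0, δ ≤ |size (2 * m) B ε - c.rank ρ - ref ε|

theorem exc_bound (hmd : m ≤ d) (hX : 𝒜.ActsOn X) (hV : IsPart 𝒜 X d m N ρ)
    (hσ : ∀ v, IsFrobAt v (Q v) (σ v)) {ref : ℝ → ℝ} (href : IsRef 𝒜 X d m N ρ Q σ ref)
    {δ : ℝ} (hδ : 0 < δ) {n : ℕ} (E : Fin n → Exc 𝒜 X d m N ρ ref δ)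
    (hE : ∀ k k', k ≠ k' → Independent (E k).c (E k').c) :
    n ≤ ⌊((𝒜.classes : ℝ) - 1) * ((N - Module.finrank ℚ V : ℕ) : ℝ) ^ 2 / δ ^ 2⌋₊ := by
  refine Nat.le_floor ?_
  rw [le_div_iff₀ (by positivity)]
  refine le_of_forall_pos_le_add fun η hη => ?_
  have h1 := core_sum hmd hX hV hσ href Finset.univ (fun k => (E k).c) (fun k _ => (E k).hs)
    (fun k _ k' _ hkk => hE k k' hkk) (fun k => (E k).X') (fun k _ => (E k).hc)
    (fun k => (E k).B) (fun k _ => (E k).hB) hη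
  have h2 : ∀ᶠ ε : ℝ in 𝓝[>] 0, ∀ k,
      δ ≤ |size (2 * m) (E k).B ε - (E k).c.rank ρ - ref ε| := by
    rw [Filter.eventually_all]
    exact fun k => (E k).hex
  obtain ⟨ε, h3, h4⟩ := (h1.and h2).exists
  refine le_trans ?_ h3
  calc (n : ℝ) * δ ^ 2 = ∑ _k : Fin n, δ ^ 2 := by
        rw [Finset.sum_const, Finset.card_univ, Fintype.card_fin, nsmul_eq_mul]
    _ ≤ ∑ k : Fin n, (size (2 * m) (E k).B ε - (E k).c.rank ρ - ref ε) ^ 2 := by
        refine Finset.sum_le_sum fun k _ => ?_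
        rw [← sq_abs (size (2 * m) (E k).B ε - (E k).c.rank ρ - ref ε)]
        exact pow_le_pow_left₀ hδ.le (h4 k) 2

theorem finite_aut : Finite (MulAut G) := by
  have : Finite (Equiv.Perm G) := inferInstance
  exact Finite.of_injective (MulAut.toPerm G) (fun a b hab => MulEquiv.ext fun x =>
    congrArg (fun f : Equiv.Perm G => f x) hab)

/-- the field of a finite family of cocycles -/
theorem exists_field (𝒜 : LinearAction K l G) {n : ℕ} (c : Fin n → Cocycle 𝒜) :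
    ∃ M : IntermediateField K (AlgebraicClosure K), FiniteDimensional K M ∧ IsGalois K M ∧
      Module.finrank K M ≤ Nat.card 𝒜.θ.range * Nat.card G ^ n ∧
      ∀ s : GK K, s ∈ M.fixingSubgroup ↔ (𝒜.θ s = 1 ∧ ∀ k, (c k).c s = 1) := by
  classical
  set Φ : GK K →* MulAut G × (Fin n → G ⋊[MonoidHom.id (MulAut G)] MulAut G) :=
    𝒜.θ.prod (MonoidHom.pi fun k => hol (c k)) with hΦ
  have hmem : ∀ s : GK K, s ∈ Φ.ker ↔ (𝒜.θ s = 1 ∧ ∀ k, (c k).c s = 1) := by
    intro s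
    rw [MonoidHom.mem_ker]
    constructor
    · intro h
      refine ⟨congrArg Prod.fst h, fun k => ?_⟩
      have h1 := congrFun (congrArg Prod.snd h) k
      exact congrArg SemidirectProduct.left h1
    · rintro ⟨h1, h2⟩
      refine Prod.ext h1 (funext fun k => ?_)
      exact SemidirectProduct.ext (h2 k) h1
  have hop : IsOpen (Φ.ker : Set (GK K)) := by
    obtain ⟨U, hU, hU1⟩ := 𝒜.cont
    have h1 : IsOpen (⋂ k, ((hol (c k)).ker : Set (GK K))) :=
      isOpen_iInter_of_finite fun k => hol_open (c k)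
    have h2 : ((U ⊓ ⨅ k, (hol (c k)).ker : Subgroup (GK K)) : Set (GK K)) =
        (U : Set (GK K)) ∩ ⋂ k, ((hol (c k)).ker : Set (GK K)) := by
      rw [Subgroup.coe_inf, Subgroup.coe_iInf]
    refine Subgroup.isOpen_mono (H₁ := U ⊓ ⨅ k, (hol (c k)).ker) (fun u hu => ?_) (by
      rw [h2]
      exact hU.inter h1)
    rw [hmem]
    refine ⟨hU1 u hu.1, fun k => ?_⟩
    have h3 : u ∈ (hol (c k)).ker := (Subgroup.mem_iInf.1 hu.2) k
    exact congrArg SemidirectProduct.left ((MonoidHom.mem_ker).1 h3)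
  have hcl : IsClosed (Φ.ker : Set (GK K)) := Subgroup.isClosed_of_isOpen _ hop
  set M : IntermediateField K (AlgebraicClosure K) := IntermediateField.fixedField Φ.ker with hM
  have hfix : M.fixingSubgroup = Φ.ker :=
    InfiniteGalois.fixingSubgroup_fixedField (k := K) (K := AlgebraicClosure K)
      (⟨Φ.ker, hcl⟩ : ClosedSubgroup (GK K))
  have hfd : FiniteDimensional K M := by
    rw [← InfiniteGalois.isOpen_iff_finite]
    show IsOpen (M.fixingSubgroup : Set (GK K))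
    rw [hfix]
    exact hop
  have hnor : M.fixingSubgroup.Normal := by
    rw [hfix]
    infer_instance
  refine ⟨M, hfd, (InfiniteGalois.normal_iff_isGalois M).1 hnor, ?_, fun s => ?_⟩
  · rw [IntermediateField.finrank_eq_fixingSubgroup_index, hfix, Subgroup.index_ker]
    have hfa := finite_aut (G := G)
    have hc1 : Nat.card (𝒜.θ.range × (Fin n → G)) = Nat.card 𝒜.θ.range * Nat.card G ^ n := by
      rw [Nat.card_prod, Nat.card_fun, Nat.card_eq_fintype_card (α := Fin n), Fintype.card_fin]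
    rw [← hc1]
    refine Nat.card_le_card_of_injective
      (fun x : Φ.range => ((⟨x.1.1, by
        obtain ⟨s, hs⟩ := x.2
        exact ⟨s, congrArg Prod.fst hs⟩⟩ : 𝒜.θ.range), fun k => (x.1.2 k).left)) ?_
    rintro ⟨_, s, rfl⟩ ⟨_, t, rfl⟩ h
    have h1 := congrArg (fun p : 𝒜.θ.range × (Fin n → G) => (p.1 : MulAut G)) h
    have h2 := congrArg (fun p : 𝒜.θ.range × (Fin n → G) => p.2) h
    refine Subtype.ext (Prod.ext h1 (funext fun k => SemidirectProduct.ext (congrFun h2 k) h1))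
  · rw [hfix]
    exact hmem s

/-- **One field governs all forms.** -/
theorem governs (hmd : m ≤ d) (hX : 𝒜.ActsOn X) (hV : IsPart 𝒜 X d m N ρ)
    (hσ : ∀ v, IsFrobAt v (Q v) (σ v)) {ref : ℝ → ℝ} (href : IsRef 𝒜 X d m N ρ Q σ ref) :
    ∃ M : IntermediateField K (AlgebraicClosure K), FiniteDimensional K M ∧ IsGalois K M ∧
      Module.finrank K M ≤ Nat.card 𝒜.θ.range *
        Nat.card G ^ ((𝒜.classes - 1) * (N - Module.finrank ℚ V) ^ 2) ∧
      ∀ (c : Cocycle 𝒜) (X' : Set (MvPolynomial (Fin l) (𝓞 K)))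
        (B : HeightOneSpectrum (𝓞 K) → ℂ[X]), c.SurjectiveOver M → c.IsForm X X' →
        IsEulerSystem X' d (2 * m) N B →
        (∃ᶠ ε : ℝ in 𝓝[>] 0, |size (2 * m) B ε - c.rank ρ - ref ε| < 1) ∧
        ∀ x y : ℤ, Tendsto ref (𝓝[>] 0) (𝓝 (y : ℝ)) →
          Tendsto (fun ε => size (2 * m) B ε - c.rank ρ) (𝓝[>] 0) (𝓝 (x : ℝ)) → x = y := by
  classical
  obtain ⟨δ, hδ0, hδ1, hδ2⟩ := Pool.Agent.Y149.WR.exists_delta
    ((𝒜.classes - 1) * (N - Module.finrank ℚ V) ^ 2)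
  have hcl : 1 ≤ 𝒜.classes := by
    unfold LinearAction.classes
    have : Nonempty (Quot fun x y : G => ∃ (g : G) (σ : Gal(AlgebraicClosure K/K)),
      y = g * 𝒜.θ σ x * g⁻¹) := ⟨Quot.mk _ 1⟩
    exact Nat.card_pos
  have e1 : ((𝒜.classes : ℝ) - 1) * ((N - Module.finrank ℚ V : ℕ) : ℝ) ^ 2 =
      (((𝒜.classes - 1) * (N - Module.finrank ℚ V) ^ 2 : ℕ) : ℝ) := by
    rw [Nat.cast_mul, Nat.cast_sub hcl, Nat.cast_pow]
    push_cast
    ring
  set L : ℕ := (𝒜.classes - 1) * (N - Module.finrank ℚ V) ^ 2 with hL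
  set P : ℕ → Prop := fun n => ∃ E : Fin n → Exc 𝒜 X d m N ρ ref δ,
    ∀ k k', k ≠ k' → Independent (E k).c (E k').c with hP
  have hP0 : P 0 := ⟨fun k => k.elim0, fun k => k.elim0⟩
  have hbd : ∀ n, P n → n ≤ L := fun n hn => by
    obtain ⟨E, hE⟩ := hn
    have := exc_bound hmd hX hV hσ href hδ0 E hE
    rwa [e1, hδ2] at this
  obtain ⟨n, hn, hmax⟩ : ∃ n, P n ∧ ¬ P (n + 1) := by
    by_contra hcon
    push Not at hcon
    have : ∀ n, P n := by
      intro n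
      induction n with
      | zero => exact hP0
      | succ n ih => exact hcon n ih
    have := hbd (L + 1) (this _)
    omega
  obtain ⟨E, hE⟩ := hn
  have hnL := hbd n ⟨E, hE⟩
  obtain ⟨M, h1, h2, h3, h4⟩ := exists_field 𝒜 fun k => (E k).c
  refine ⟨M, h1, h2, h3.trans (Nat.mul_le_mul_left _ (Nat.pow_le_pow_right Nat.card_pos hnL)),
    fun c X' B hs hc hB => ?_⟩
  have hsur : Surj c := by
    intro g
    obtain ⟨s, hs1, hs2⟩ := hs g
    exact ⟨s, ((h4 s).1 hs1).1, hs2⟩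
  have hind : ∀ k, Independent (E k).c c := by
    intro k g g'
    obtain ⟨s, hs1, hs2⟩ := (E k).hs g
    obtain ⟨t, ht1, ht2⟩ := hs ((c.c s)⁻¹ * g')
    have h5 := (h4 t).1 ht1
    have hs1' : 𝒜.θ s = 1 := hs1
    refine ⟨s * t, ?_, ?_, ?_⟩
    · show s * t ∈ 𝒜.θ.ker
      rw [MonoidHom.mem_ker, map_mul, hs1', h5.1, mul_one]
    · rw [(E k).c.mul, h5.2 k, map_one, mul_one, hs2]
    · rw [c.mul, ht2, hs1', MulAut.one_apply, mul_inv_cancel_left]
  have hsymm : ∀ {c c' : Cocycle 𝒜}, Independent c c' → Independent c' c := by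
    intro c c' h g g'
    obtain ⟨s, hs1, hs2, hs3⟩ := h g' g
    exact ⟨s, hs1, hs3, hs2⟩
  have hfreq : ∃ᶠ ε : ℝ in 𝓝[>] 0, |size (2 * m) B ε - c.rank ρ - ref ε| < δ := by
    rw [Filter.Frequently]
    intro hev
    apply hmax
    have hev' : ∀ᶠ ε : ℝ in 𝓝[>] 0, δ ≤ |size (2 * m) B ε - c.rank ρ - ref ε| :=
      hev.mono fun ε h => not_lt.1 h
    set E₀ : Exc 𝒜 X d m N ρ ref δ := ⟨c, X', B, hsur, hc, hB, hev'⟩ with hE₀
    refine ⟨Fin.cons E₀ E, ?_⟩
    intro k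
    refine Fin.cases ?_ (fun k => ?_) k
    · intro k'
      refine Fin.cases ?_ (fun k' => ?_) k'
      · intro h
        exact absurd rfl h
      · intro _
        exact hsymm (hind k')
    · intro k'
      refine Fin.cases ?_ (fun k' => ?_) k'
      · intro _
        exact hind k
      · intro h
        exact hE k k' fun h' => h (congrArg Fin.succ h')
  refine ⟨hfreq.mono fun ε h => h.trans hδ1, fun x y hy hx => ?_⟩
  have h6 := (hx.sub hy).abs
  have h7 : |(x : ℝ) - y| ≤ δ := by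
    by_contra hcon
    push Not at hcon
    exact hfreq ((h6.eventually (lt_mem_nhds hcon)).mono fun ε h3 => not_lt.2 (le_of_lt h3))
  have h8 : |(x : ℝ) - y| < 1 := h7.trans_lt hδ1
  have h9 : |x - y| < 1 := by exact_mod_cast h8
  have h10 := Int.abs_lt_one_iff.1 h9
  omega

end

end Pool.Agent.K7.H53.FM
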