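import Pool.Agent.K7.H53.FM.Gov

/-! Forms of a variety: the main theorems. -/

set_option autoImplicit false

namespace Pool.Agent.K7.H53.FM

open Complex Filter Topology NumberField IsDedekindDomain Polynomial
open Pool.Agent.W540.BE (EP nm exists_isFrob)
open Pool.Agent.W401.Cheb
open Pool.Agent.W353.EF (IsFrobenius IsEulerSystem LFun size)

section
variable {K : Type} [Field K] [NumberField K]

/-- limits of the sizes -/
theorem lim_size {i : ℕ} {B : HeightOneSpectrum (𝓞 K) → ℂ[X]} {r : ℤ}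
    (hne : ∀ᶠ ε : ℝ in 𝓝[>] 0, LFun B ((i : ℂ) / 2 + 1 + ε) ≠ 0)
    (hr : Pool.Agent.W353.EF.HasOrder i B r) :
    Tendsto (size i B) (𝓝[>] 0) (𝓝 (-(r : ℝ))) := by
  obtain ⟨Λ, h1, h2, h3⟩ := hr
  refine Pool.Agent.W353.PV.lim_ord (L := LFun B) (s₀ := (i : ℂ) / 2 + 1) hne h1 ?_ h3
  have e : ((i : ℂ) / 2 + 1).re = (i : ℝ) / 2 + 1 := by simp
  rw [e]
  exact h2

variable {l : ℕ} {G : Type} [Group G] [Finite G]
  {𝒜 : LinearAction K l G} {X : Set (MvPolynomial (Fin l) (𝓞 K))} {d m N : ℕ}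
  {V : Type} [AddCommGroup V] [Module ℚ V] [FiniteDimensional ℚ V]
  {ρ : Representation ℚ (G ⋊[𝒜.θ] Gal(AlgebraicClosure K/K)) V}

/-- both statements for one reference function -/
theorem both [Fintype G] (hmd : m ≤ d) (hX : 𝒜.ActsOn X) (hV : IsPart 𝒜 X d m N ρ)
    {Q : HeightOneSpectrum (𝓞 K) → Ideal (𝓞 (AlgebraicClosure K))}
    {σ : HeightOneSpectrum (𝓞 K) → GK K} (hσ : ∀ v, IsFrobAt v (Q v) (σ v)) {ref : ℝ → ℝ}
    (href : IsRef 𝒜 X d m N ρ Q σ ref) :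
    SumOfSquares 𝒜 X d m N ρ ref ∧ OneFieldGoverns 𝒜 X d m N ρ ref := by
  constructor
  · intro κ _ c X' B hs hd hc hB
    have hne : ∀ k, ∀ᶠ ε : ℝ in 𝓝[>] 0, LFun (B k) (((2 * m : ℕ) : ℂ) / 2 + 1 + ε) ≠ 0 :=
      fun k => (size_form hmd hX hV hσ (hc k) (hB k)).1
    have hsum := fun (η : ℝ) (hη : 0 < η) => core_sum hmd hX hV hσ href Finset.univ c
      (fun k _ => hs k) (fun k _ k' _ hkk => hd k k' hkk) X' (fun k _ => hc k) B
      (fun k _ => hB k) hη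
    refine ⟨fun η hη => ?_, fun δ₀ r hδ hr => ?_⟩
    · filter_upwards [Filter.eventually_all.2 hne, hsum η hη] with ε h1 h2
      exact ⟨h1, h2⟩
    · have hlim : Tendsto (fun ε : ℝ => ∑ k, (size (2 * m) (B k) ε - (c k).rank ρ - ref ε) ^ 2)
          (𝓝[>] 0) (𝓝 (∑ k, (-(r k : ℝ) - (c k).rank ρ - -(δ₀ : ℝ)) ^ 2)) :=
        tendsto_finsetSum _ fun k _ =>
          (((lim_size (hne k) (hr k)).sub_const _).sub hδ).pow 2
      have h1 : ∑ k, (-(r k : ℝ) - (c k).rank ρ - -(δ₀ : ℝ)) ^ 2 ≤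
          ((𝒜.classes : ℝ) - 1) * ((N - Module.finrank ℚ V : ℕ) : ℝ) ^ 2 :=
        le_of_forall_pos_le_add fun η hη => le_of_tendsto hlim (hsum η hη)
      have h2 : ∑ k, (-(r k : ℝ) - (c k).rank ρ - -(δ₀ : ℝ)) ^ 2 =
          ((∑ k, (r k + (c k).rank ρ - δ₀) ^ 2 : ℤ) : ℝ) := by
        push_cast
        exact Finset.sum_congr rfl fun k _ => by ring
      rw [h2] at h1
      exact_mod_cast h1
  · obtain ⟨M, h1, h2, h3, h4⟩ := governs hmd hX hV hσ href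
    refine ⟨M, h1, h2, h3, fun c X' B hs hc hB => ?_⟩
    obtain ⟨h5, h6⟩ := h4 c X' B hs hc hB
    have hne := (size_form hmd hX hV hσ hc hB).1
    refine ⟨hne, h5, fun δ₀ r hδ hr => ?_⟩
    have h7 := h6 (-r - c.rank ρ) (-δ₀) (by
      refine hδ.trans (le_of_eq ?_)
      push_cast
      rfl) (by
      refine ((lim_size hne hr).sub_const _).trans (le_of_eq ?_)
      push_cast
      rfl)
    omega

/-- **Main theorem.** -/
theorem main (hmd : m ≤ d) (hX : 𝒜.ActsOn X) (hV : IsPart 𝒜 X d m N ρ) :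
    (∀ (M₀ : ℕ) (B₀ : HeightOneSpectrum (𝓞 K) → ℂ[X]), IsQuotientSystem 𝒜 X d (2 * m) N M₀ B₀ →
      (∀ᶠ ε : ℝ in 𝓝[>] 0, LFun B₀ (((2 * m : ℕ) : ℂ) / 2 + 1 + ε) ≠ 0) ∧
      SumOfSquares 𝒜 X d m N ρ (fun ε => size (2 * m) B₀ ε - quotientRank 𝒜 ρ) ∧
      OneFieldGoverns 𝒜 X d m N ρ (fun ε => size (2 * m) B₀ ε - quotientRank 𝒜 ρ) ∧
      ∀ r₀ : ℤ, Pool.Agent.W353.EF.HasOrder (2 * m) B₀ r₀ →
        Tendsto (fun ε => size (2 * m) B₀ ε - quotientRank 𝒜 ρ) (𝓝[>] 0)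
          (𝓝 (-((r₀ + quotientRank 𝒜 ρ : ℤ) : ℝ)))) ∧
    (QuotientAlgebraic 𝒜 X d m N ρ →
      SumOfSquares 𝒜 X d m N ρ (fun _ => 0) ∧ OneFieldGoverns 𝒜 X d m N ρ (fun _ => 0)) := by
  classical
  let _ : Fintype G := Fintype.ofFinite G
  choose σ hσ' using exists_isFrob (F := K)
  choose Q hσ using hσ'
  constructor
  · intro M₀ B₀ hB₀
    have h1 := size_quot (Q := Q) (σ := σ) hmd hX hV hσ hB₀
    have h2 := both hmd hX hV hσ h1.2
    refine ⟨h1.1, h2.1, h2.2, fun r₀ hr₀ => ?_⟩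
    refine ((lim_size h1.1 hr₀).sub_const _).trans (le_of_eq ?_)
    congr 1
    push_cast
    ring
  · intro hA
    exact both hmd hX hV hσ (ref_alg hX hV hσ hA)

end

end Pool.Agent.K7.H53.FM
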