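import Pool.Agent.K7.H53.FM.Defs
import Mathlib.RingTheory.Nullstellensatz
import Mathlib.RingTheory.MvPolynomial.Localization

/-! Equalities of algebraic sets over the algebraic closure hold modulo almost all primes. -/

set_option autoImplicit false

namespace Pool.Agent.K7.H53.FM

open NumberField IsDedekindDomain Filter Topology MvPolynomial

section
variable {K : Type} [Field K] [NumberField K]

/-- the ring of all algebraic integers -/
abbrev RR (K : Type) [Field K] : Type := 𝓞 (AlgebraicClosure K)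

theorem rr_frac : IsFractionRing (RR K) (AlgebraicClosure K) := by
  have : Algebra.IsAlgebraic ℚ (AlgebraicClosure K) := Algebra.IsAlgebraic.trans ℚ K _
  have : Algebra.IsAlgebraic ℤ (AlgebraicClosure K) :=
    (IsFractionRing.comap_isAlgebraic_iff (A := ℤ) (K := ℚ) (C := AlgebraicClosure K)).2 inferInstance
  exact integralClosure.isFractionRing_of_algebraic (A := ℤ) (L := AlgebraicClosure K)
    (fun x hx => by
      have : ((x : ℤ) : AlgebraicClosure K) = 0 := by simpa using hx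
      exact_mod_cast this)

theorem rr_inj : Function.Injective (algebraMap (RR K) (AlgebraicClosure K)) :=
  FaithfulSMul.algebraMap_injective _ _

theorem rr_inj' : Function.Injective (algebraMap (𝓞 K) (RR K)) :=
  FaithfulSMul.algebraMap_injective _ _

/-- a nonzero algebraic integer is contained in no prime above almost all `v` -/
theorem avoid (D : RR K) (hD : D ≠ 0) : ∀ᶠ v : HeightOneSpectrum (𝓞 K) in cofinite,
    ∀ Q : Ideal (RR K), Q.comap (algebraMap (𝓞 K) (RR K)) = v.asIdeal → D ∉ Q := by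
  have hint : IsIntegral (𝓞 K) D := by
    have h1 : IsIntegral ℤ D := by
      have := D.2
      have h2 : IsIntegral ℤ (algebraMap (RR K) (AlgebraicClosure K) D) := this
      exact (isIntegral_algebraMap_iff rr_inj).1 h2
    exact h1.tower_top
  obtain ⟨a, ha0, haD⟩ : ∃ a : 𝓞 K, a ≠ 0 ∧ D ∣ algebraMap (𝓞 K) (RR K) a := by
    have halg : IsAlgebraic (𝓞 K) D := hint.isAlgebraic
    obtain ⟨p, hp0, hp⟩ := halg
    obtain ⟨q, hq, hdiv⟩ := Polynomial.exists_eq_pow_rootMultiplicity_mul_and_not_dvd p hp0 0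
    simp only [map_zero, sub_zero] at hq hdiv
    rw [Polynomial.X_dvd_iff] at hdiv
    refine ⟨q.coeff 0, hdiv, ?_⟩
    have h1 : Polynomial.aeval D q = 0 := by
      rw [hq, map_mul, map_pow, Polynomial.aeval_X] at hp
      exact (mul_eq_zero.1 hp).resolve_left (pow_ne_zero _ hD)
    obtain ⟨r, hr⟩ : Polynomial.X ∣ q - Polynomial.C (q.coeff 0) := by
      rw [Polynomial.X_dvd_iff]
      simp
    have h2 : q = Polynomial.X * r + Polynomial.C (q.coeff 0) := by rw [← hr]; ring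
    have h3 := h1
    rw [h2, map_add, map_mul, Polynomial.aeval_X, Polynomial.aeval_C] at h3
    refine ⟨-Polynomial.aeval D r, ?_⟩
    rw [mul_neg]
    exact eq_neg_of_add_eq_zero_right h3
  have hfin : {v : HeightOneSpectrum (𝓞 K) | v.asIdeal ∣ Ideal.span {a}}.Finite :=
    Ideal.finite_factors (fun h => ha0 (Ideal.span_singleton_eq_bot.1 h))
  rw [Filter.eventually_cofinite]
  refine hfin.subset fun v hv => ?_
  simp only [Set.mem_ofPred_eq, not_forall, not_not] at hv
  obtain ⟨Q, hQ, hDQ⟩ := hv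
  show v.asIdeal ∣ Ideal.span {a}
  rw [Ideal.dvd_span_singleton, ← hQ, Ideal.mem_comap]
  exact Ideal.mem_of_dvd Q haD hDQ

variable {l : ℕ}

attribute [local instance] MvPolynomial.algebraMvPolynomial

/-- vanishing over the algebraic closure implies vanishing modulo almost all primes -/
theorem spread (S : Set (MvPolynomial (Fin l) (RR K))) (f : MvPolynomial (Fin l) (RR K))
    (h : ∀ u : Fin l → AlgebraicClosure K, (∀ s ∈ S, eval₂ (algebraMap (RR K) _) u s = 0) →
      eval₂ (algebraMap (RR K) _) u f = 0) :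
    ∃ D : RR K, D ≠ 0 ∧ ∀ (κ : Type) [CommRing κ] [IsDomain κ] (ψ : RR K →+* κ), ψ D ≠ 0 →
      ∀ y : Fin l → κ, (∀ s ∈ S, eval₂ ψ y s = 0) → eval₂ ψ y f = 0 := by
  have hfr := rr_frac (K := K)
  set I : Ideal (MvPolynomial (Fin l) (RR K)) := Ideal.span S with hI
  set I' : Ideal (MvPolynomial (Fin l) (AlgebraicClosure K)) :=
    I.map (algebraMap (MvPolynomial (Fin l) (RR K)) (MvPolynomial (Fin l) (AlgebraicClosure K)))
    with hI'
  have halg : ∀ s : MvPolynomial (Fin l) (RR K), algebraMap (MvPolynomial (Fin l) (RR K))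
      (MvPolynomial (Fin l) (AlgebraicClosure K)) s = MvPolynomial.map (algebraMap (RR K) _) s := by
    intro s
    rw [MvPolynomial.algebraMap_def]
  have h1 : algebraMap _ _ f ∈ vanishingIdeal (AlgebraicClosure K)
      (zeroLocus (AlgebraicClosure K) I') := by
    rw [mem_vanishingIdeal_iff]
    intro u hu
    rw [halg, MvPolynomial.aeval_map_algebraMap]
    have h2 : eval₂ (algebraMap (RR K) _) u f = 0 := h u fun s hs => by
      have h3 := hu (algebraMap _ _ s) (Ideal.mem_map_of_mem _ (Ideal.subset_span hs))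
      rw [halg, MvPolynomial.aeval_map_algebraMap] at h3
      exact h3
    exact h2
  rw [vanishingIdeal_zeroLocus_eq_radical] at h1
  obtain ⟨n, hn⟩ := h1
  rw [← map_pow, hI', IsLocalization.algebraMap_mem_map_algebraMap_iff
    ((nonZeroDivisors (RR K)).map (C (σ := Fin l)))] at hn
  obtain ⟨m, ⟨D, hD, rfl⟩, hm⟩ := hn
  refine ⟨D, nonZeroDivisors.ne_zero hD, fun κ _ _ ψ hψ y hy => ?_⟩
  have h4 : ∀ s ∈ I, eval₂ ψ y s = 0 := by
    intro s hs
    have h5 : I ≤ RingHom.ker (eval₂Hom ψ y) := by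
      rw [hI, Ideal.span_le]
      intro s hs
      exact hy s hs
    exact h5 hs
  have h6 := h4 _ hm
  rw [eval₂_mul, eval₂_C, eval₂_pow] at h6
  have h7 := (mul_eq_zero.1 h6).resolve_left hψ
  exact (pow_eq_zero_iff (n := n) (fun h0 => by
    rw [h0, pow_zero] at h7
    exact one_ne_zero h7)).1 h7

/-- composition of a polynomial and a matrix -/
noncomputable def comp (φ : Matrix (Fin l) (Fin l) (RR K)) (f : MvPolynomial (Fin l) (𝓞 K)) :
    MvPolynomial (Fin l) (RR K) :=
  eval₂ (C.comp (algebraMap (𝓞 K) (RR K))) (fun i => ∑ j, C (φ i j) * X j) f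

theorem eval₂_comp {κ : Type} [CommRing κ] (ψ : RR K →+* κ) (y : Fin l → κ)
    (φ : Matrix (Fin l) (Fin l) (RR K)) (f : MvPolynomial (Fin l) (𝓞 K)) :
    eval₂ ψ y (comp φ f) = eval₂ (ψ.comp (algebraMap (𝓞 K) (RR K))) ((φ.map ψ).mulVec y) f := by
  have e0 := hom_eval₂ f (C.comp (algebraMap (𝓞 K) (RR K))) (eval₂Hom ψ y)
    (fun i : Fin l => ∑ j, C (φ i j) * X j)
  have e1 : (eval₂Hom ψ y).comp (C.comp (algebraMap (𝓞 K) (RR K))) =
      ψ.comp (algebraMap (𝓞 K) (RR K)) := by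
    ext x
    simp
  have e2 : (fun i => (eval₂Hom ψ y) (∑ j, C (φ i j) * X j)) = (φ.map ψ).mulVec y := by
    funext i
    simp only [map_sum, map_mul, eval₂Hom_C, eval₂Hom_X',
      Matrix.mulVec, dotProduct, Matrix.map_apply]
  rw [e1, e2] at e0
  exact e0

/-- finitely many polynomials are enough -/
theorem fin_gen (X : Set (MvPolynomial (Fin l) (𝓞 K))) :
    ∃ T : Finset (MvPolynomial (Fin l) (𝓞 K)), (T : Set _) ⊆ X ∧
      ∀ (κ : Type) [CommRing κ] (φ : 𝓞 K →+* κ) (y : Fin l → κ),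
        (∀ f ∈ T, eval₂ φ y f = 0) → ∀ f ∈ X, eval₂ φ y f = 0 := by
  obtain ⟨T, hT, hspan⟩ := Submodule.fg_span_iff_fg_span_finset_subset (R := MvPolynomial (Fin l) (𝓞 K)) X |>.1
    (IsNoetherian.noetherian _)
  refine ⟨T, hT, fun κ _ φ y hy f hf => ?_⟩
  have h1 : Ideal.span (T : Set (MvPolynomial (Fin l) (𝓞 K))) ≤ RingHom.ker (eval₂Hom φ y) := by
    rw [Ideal.span_le]
    intro s hs
    exact hy s hs
  have h2 : f ∈ Ideal.span (T : Set (MvPolynomial (Fin l) (𝓞 K))) := by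
    have h3 : f ∈ Submodule.span (MvPolynomial (Fin l) (𝓞 K)) X := Submodule.subset_span hf
    rw [hspan] at h3
    exact h3
  exact h1 h2

/-- the general statement for two sets of polynomials over `𝓞 K` and two matrices -/
theorem spread_comp (X Y : Set (MvPolynomial (Fin l) (𝓞 K)))
    (φ χ : Matrix (Fin l) (Fin l) (RR K))
    (h : ∀ u : Fin l → AlgebraicClosure K,
      (∀ f ∈ X, eval₂ (algebraMap (𝓞 K) _) ((φ.map (algebraMap (RR K) _)).mulVec u) f = 0) →
      ∀ f ∈ Y, eval₂ (algebraMap (𝓞 K) _) ((χ.map (algebraMap (RR K) _)).mulVec u) f = 0) :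
    ∀ᶠ v : HeightOneSpectrum (𝓞 K) in cofinite, ∀ Q : Ideal (RR K), Q.IsMaximal →
      Q.comap (algebraMap (𝓞 K) (RR K)) = v.asIdeal → ∀ y : Fin l → RR K ⧸ Q,
      (∀ f ∈ X, eval₂ ((Ideal.Quotient.mk Q).comp (algebraMap (𝓞 K) (RR K)))
        ((φ.map (Ideal.Quotient.mk Q)).mulVec y) f = 0) →
      ∀ f ∈ Y, eval₂ ((Ideal.Quotient.mk Q).comp (algebraMap (𝓞 K) (RR K)))
        ((χ.map (Ideal.Quotient.mk Q)).mulVec y) f = 0 := by
  classical
  obtain ⟨T, hT, hTY⟩ := fin_gen Y
  have hcomp : (algebraMap (RR K) (AlgebraicClosure K)).comp (algebraMap (𝓞 K) (RR K)) =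
      algebraMap (𝓞 K) (AlgebraicClosure K) := by
    rw [← IsScalarTower.algebraMap_eq]
  have hone : ∀ f ∈ T, ∀ᶠ v : HeightOneSpectrum (𝓞 K) in cofinite, ∀ Q : Ideal (RR K),
      Q.IsMaximal → Q.comap (algebraMap (𝓞 K) (RR K)) = v.asIdeal → ∀ y : Fin l → RR K ⧸ Q,
      (∀ f ∈ X, eval₂ ((Ideal.Quotient.mk Q).comp (algebraMap (𝓞 K) (RR K)))
        ((φ.map (Ideal.Quotient.mk Q)).mulVec y) f = 0) →
      eval₂ ((Ideal.Quotient.mk Q).comp (algebraMap (𝓞 K) (RR K)))
        ((χ.map (Ideal.Quotient.mk Q)).mulVec y) f = 0 := by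
    intro f hf
    obtain ⟨D, hD0, hD⟩ := spread (comp φ '' X) (comp χ f) fun u hu => by
      rw [eval₂_comp, hcomp]
      refine h u (fun g hg => ?_) f (hT hf)
      have := hu (comp φ g) ⟨g, hg, rfl⟩
      rwa [eval₂_comp, hcomp] at this
    refine (avoid D hD0).mono fun v hv Q hQm hQ y hy => ?_
    have := hQm.isPrime
    have h1 := hD (RR K ⧸ Q) (Ideal.Quotient.mk Q) (by
      rw [Ne, Ideal.Quotient.eq_zero_iff_mem]
      exact hv Q hQ) y (by
      rintro _ ⟨g, hg, rfl⟩
      rw [eval₂_comp]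
      exact hy g hg)
    rwa [eval₂_comp] at h1
  have hall : ∀ᶠ v : HeightOneSpectrum (𝓞 K) in cofinite, ∀ f ∈ T, ∀ Q : Ideal (RR K),
      Q.IsMaximal → Q.comap (algebraMap (𝓞 K) (RR K)) = v.asIdeal → ∀ y : Fin l → RR K ⧸ Q,
      (∀ f ∈ X, eval₂ ((Ideal.Quotient.mk Q).comp (algebraMap (𝓞 K) (RR K)))
        ((φ.map (Ideal.Quotient.mk Q)).mulVec y) f = 0) →
      eval₂ ((Ideal.Quotient.mk Q).comp (algebraMap (𝓞 K) (RR K)))
        ((χ.map (Ideal.Quotient.mk Q)).mulVec y) f = 0 := by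
    rw [Filter.eventually_all_finset]
    exact hone
  refine hall.mono fun v hv Q hQm hQ y hy => ?_
  exact hTY _ _ _ fun f hf => hv f hf Q hQm hQ y hy

end

end Pool.Agent.K7.H53.FM
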