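import Pool.Agent.K7.H53.FM.Geo

/-! The traces of `g ∘ Frob` on the cohomology. -/

set_option autoImplicit false

namespace Pool.Agent.K7.H53.FM

open NumberField IsDedekindDomain Filter Topology ComplexConjugate
open Pool.Agent.W353.EF (IsFrobenius IsEulerSystem cone)
open Pool.Agent.W353.TD (eigenvalues eig eig_sum eig_card)

section
variable {K : Type} [Field K] [NumberField K] {l : ℕ} {G : Type} [Group G]
  {𝒜 : LinearAction K l G} {X : Set (MvPolynomial (Fin l) (𝓞 K))} {d i N : ℕ}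
  {v : HeightOneSpectrum (𝓞 K)} {Q : Ideal (𝓞 (AlgebraicClosure K))}
  {σ : Gal(AlgebraicClosure K/K)} {g : G}

theorem IsEigen.unique (hi : i ≤ 2 * d) {N' : ℕ} {α : Fin N → ℂ} {α' : Fin N' → ℂ}
    (h : 𝒜.IsEigen X d i v Q σ g α) (h' : 𝒜.IsEigen X d i v Q σ g α') :
    Finset.univ.val.map α = Finset.univ.val.map α' := by
  obtain ⟨β, h1, h2, h3⟩ := h
  obtain ⟨β', h1', h2', h3'⟩ := h'
  rw [← h1, ← h1']
  refine Pool.Agent.W353.PV.mult_unique (D := 2 * d + 1) (Pool.Agent.W353.PV.one_lt_norm v)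
    h2 h2' (fun e he => ?_) (by omega)
  have e1 := h3 e he
  rw [h3' e he] at e1
  refine (mul_left_cancel₀ ?_ e1).symm
  have h4 : (1 : ℝ) < (Ideal.absNorm v.asIdeal : ℝ) ^ e :=
    one_lt_pow₀ (Pool.Agent.W353.PV.one_lt_norm v) (by omega)
  intro h5
  have h6 : ((Ideal.absNorm v.asIdeal : ℂ) ^ e) = 1 := sub_eq_zero.1 h5
  have h7 : ((Ideal.absNorm v.asIdeal : ℝ) ^ e) = 1 := by exact_mod_cast h6
  linarith

theorem IsEigen.conj {α : Fin N → ℂ} (h : 𝒜.IsEigen X d i v Q σ g α) :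
    𝒜.IsEigen X d i v Q σ g (fun j => conj (α j)) := by
  obtain ⟨β, h1, h2, h3⟩ := h
  refine ⟨fun k => (β k).map conj, ?_, ?_, ?_⟩
  · simp only [h1, Multiset.map_map]
    rfl
  · intro k z hz
    obtain ⟨y, hy, rfl⟩ := Multiset.mem_map.1 hz
    rw [Complex.norm_conj]
    exact h2 k y hy
  · intro e he
    have e1 := congrArg conj (h3 e he)
    rw [Complex.conj_natCast] at e1
    rw [e1, map_mul, map_sub, map_pow, map_one, Complex.conj_natCast, map_sum]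
    congr 1
    refine Finset.sum_congr rfl fun k _ => ?_
    rw [map_mul, map_pow, map_neg, map_one, map_multiset_sum, Multiset.map_map, Multiset.map_map]
    congr 3
    funext z
    simp

theorem IsEigen.im (hi : i ≤ 2 * d) {α : Fin N → ℂ} (h : 𝒜.IsEigen X d i v Q σ g α) :
    (∑ j, α j).im = 0 := by
  have h1 := IsEigen.unique hi h (IsEigen.conj h)
  have h2 := congrArg Multiset.sum h1
  change ∑ j, α j = ∑ j, conj (α j) at h2
  rw [← map_sum] at h2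
  exact Complex.conj_eq_iff_im.1 h2.symm

theorem IsEigen.norm {α : Fin N → ℂ} (h : 𝒜.IsEigen X d i v Q σ g α) (j : Fin N) :
    ‖α j‖ = (Ideal.absNorm v.asIdeal : ℝ) ^ ((i : ℝ) / 2) := by
  obtain ⟨β, h1, h2, h3⟩ := h
  refine h2 i (α j) ?_
  rw [h1, Multiset.mem_map]
  exact ⟨j, Finset.mem_univ_val j, rfl⟩

theorem IsEigen.sum_eq (hi : i ≤ 2 * d) {α α' : Fin N → ℂ}
    (h : 𝒜.IsEigen X d i v Q σ g α) (h' : 𝒜.IsEigen X d i v Q σ g α') :
    ∑ j, α j = ∑ j, α' j :=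
  congrArg Multiset.sum (IsEigen.unique hi h h')

end

/-- the traces on the complement are bounded -/
theorem sub_le {V : Type} [AddCommGroup V] [Module ℚ V] [FiniteDimensional ℚ V] {N m : ℕ}
    {q : ℝ} (hq : 0 < q) {α : Fin N → ℂ} (hn : ∀ j, ‖α j‖ = q ^ m) (f : Module.End ℚ V)
    (hle : (eigenvalues f).map (fun z => (q : ℂ) ^ m * z) ≤ Finset.univ.val.map α) :
    ‖(∑ j, α j) * ((q : ℂ) ^ m)⁻¹ - ((LinearMap.trace ℚ V f : ℚ) : ℂ)‖ ≤
      ((N - Module.finrank ℚ V : ℕ) : ℝ) := by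
  classical
  obtain ⟨γ, hγ⟩ := Multiset.le_iff_exists_add.1 hle
  have hqC : (q : ℂ) ≠ 0 := by
    exact_mod_cast hq.ne'
  have hnorm : ∀ z ∈ γ, ‖z‖ = q ^ m := by
    intro z hz
    have h5 : z ∈ Finset.univ.val.map α := by
      rw [hγ]
      exact Multiset.mem_add.2 (Or.inr hz)
    obtain ⟨j, -, rfl⟩ := Multiset.mem_map.1 h5
    exact hn j
  have hcard : γ.card = N - Module.finrank ℚ V := by
    have h5 := congrArg Multiset.card hγ
    have h7 : Multiset.card (eigenvalues f) = Module.finrank ℚ V := eig_card f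
    rw [Multiset.card_map, Multiset.card_add, Multiset.card_map, h7] at h5
    have h6 : (Finset.univ : Finset (Fin N)).val.card = N := by simp
    omega
  have hsum : ∑ j, α j = (q : ℂ) ^ m * ((LinearMap.trace ℚ V f : ℚ) : ℂ) + γ.sum := by
    have h5 := congrArg Multiset.sum hγ
    have h7 : (eigenvalues f).sum = ((LinearMap.trace ℚ V f : ℚ) : ℂ) := eig_sum f
    rw [Multiset.sum_add, Multiset.sum_map_mul_left, Multiset.map_id', h7] at h5
    exact h5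
  have key : (∑ j, α j) * ((q : ℂ) ^ m)⁻¹ - ((LinearMap.trace ℚ V f : ℚ) : ℂ) =
      γ.sum * ((q : ℂ) ^ m)⁻¹ := by
    rw [hsum]
    have h7 : (q : ℂ) ^ m ≠ 0 := pow_ne_zero _ hqC
    field_simp
    ring
  rw [key, norm_mul, norm_inv, norm_pow, Complex.norm_real, Real.norm_eq_abs, abs_of_pos hq,
    ← hcard]
  have h8 : ‖γ.sum‖ ≤ γ.card * q ^ m := by
    refine (norm_multiset_sum_le _).trans (le_of_eq ?_)
    have h9 : γ.map (fun z => ‖z‖) = γ.map fun _ => q ^ m :=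
      Multiset.map_congr rfl fun z hz => hnorm z hz
    rw [h9, Multiset.map_const', Multiset.sum_replicate, nsmul_eq_mul]
  have h10 : (0 : ℝ) < q ^ m := by positivity
  rw [← div_eq_mul_inv, div_le_iff₀ h10]
  exact h8

section
variable {K : Type} [Field K] [NumberField K] {l : ℕ} {G : Type} [Group G]
  (𝒜 : LinearAction K l G) (X : Set (MvPolynomial (Fin l) (𝓞 K))) (d m N : ℕ)
  {V : Type} [AddCommGroup V] [Module ℚ V] [FiniteDimensional ℚ V]
  (ρ : Representation ℚ (G ⋊[𝒜.θ] Gal(AlgebraicClosure K/K)) V)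

/-- the eigenvalues contain those on `V` -/
def Has (v : HeightOneSpectrum (𝓞 K)) (Q : Ideal (𝓞 (AlgebraicClosure K)))
    (σ : Gal(AlgebraicClosure K/K)) (g : G) (α : Fin N → ℂ) : Prop :=
  𝒜.IsEigen X d (2 * m) v Q σ g α ∧
    (eigenvalues (ρ ⟨g, σ⟩⁻¹)).map (fun z => (Ideal.absNorm v.asIdeal : ℂ) ^ m * z) ≤
      Finset.univ.val.map α

open Classical in
/-- the chosen eigenvalues -/
noncomputable def al (v : HeightOneSpectrum (𝓞 K)) (Q : Ideal (𝓞 (AlgebraicClosure K)))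
    (σ : Gal(AlgebraicClosure K/K)) (g : G) : Fin N → ℂ :=
  if h : ∃ α, Has 𝒜 X d m N ρ v Q σ g α then h.choose else 0

theorem al_spec {v : HeightOneSpectrum (𝓞 K)} {Q : Ideal (𝓞 (AlgebraicClosure K))}
    {σ : Gal(AlgebraicClosure K/K)} {g : G} (h : ∃ α, Has 𝒜 X d m N ρ v Q σ g α) :
    Has 𝒜 X d m N ρ v Q σ g (al 𝒜 X d m N ρ v Q σ g) := by
  unfold al
  rw [dif_pos h]
  exact h.choose_spec

/-- the trace on `V` -/
noncomputable def cv (x : G ⋊[𝒜.θ] Gal(AlgebraicClosure K/K)) : ℝ :=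
  ((LinearMap.trace ℚ V (ρ x⁻¹) : ℚ) : ℝ)

/-- the normalised trace on the cohomology -/
noncomputable def th (v : HeightOneSpectrum (𝓞 K)) (Q : Ideal (𝓞 (AlgebraicClosure K)))
    (σ : Gal(AlgebraicClosure K/K)) (g : G) : ℝ :=
  (∑ j, al 𝒜 X d m N ρ v Q σ g j).re * ((Ideal.absNorm v.asIdeal : ℝ) ^ m)⁻¹

/-- the difference -/
noncomputable def ff (v : HeightOneSpectrum (𝓞 K)) (Q : Ideal (𝓞 (AlgebraicClosure K)))
    (σ : Gal(AlgebraicClosure K/K)) (g : G) : ℝ :=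
  th 𝒜 X d m N ρ v Q σ g - cv 𝒜 ρ ⟨g, σ⟩

variable {𝒜 X d m N ρ}

theorem norm_pos (v : HeightOneSpectrum (𝓞 K)) : (0 : ℝ) < (Ideal.absNorm v.asIdeal : ℝ) :=
  zero_lt_one.trans (Pool.Agent.W353.PV.one_lt_norm v)

theorem Has.nrm {v : HeightOneSpectrum (𝓞 K)} {Q : Ideal (𝓞 (AlgebraicClosure K))}
    {σ : Gal(AlgebraicClosure K/K)} {g : G} {α : Fin N → ℂ}
    (h : Has 𝒜 X d m N ρ v Q σ g α) (j : Fin N) :
    ‖α j‖ = (Ideal.absNorm v.asIdeal : ℝ) ^ m := by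
  rw [IsEigen.norm h.1 j]
  have e : (((2 * m : ℕ) : ℝ) / 2) = (m : ℝ) := by push_cast; ring
  rw [e, Real.rpow_natCast]

theorem abs_ff {v : HeightOneSpectrum (𝓞 K)} {Q : Ideal (𝓞 (AlgebraicClosure K))}
    {σ : Gal(AlgebraicClosure K/K)} {g : G} (h : ∃ α, Has 𝒜 X d m N ρ v Q σ g α) :
    |ff 𝒜 X d m N ρ v Q σ g| ≤ ((N - Module.finrank ℚ V : ℕ) : ℝ) := by
  have h1 := al_spec 𝒜 X d m N ρ h
  have h2 := sub_le (norm_pos v) (fun j => Has.nrm h1 j) (ρ ⟨g, σ⟩⁻¹) (by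
    have := h1.2
    simpa using this)
  refine le_trans ?_ h2
  refine le_trans (le_of_eq ?_) (Complex.abs_re_le_norm _)
  unfold ff th cv
  congr 1
  rw [Complex.sub_re]
  congr 1
  have e : ((((Ideal.absNorm v.asIdeal : ℕ) : ℝ) : ℂ) ^ m)⁻¹ =
      ((((Ideal.absNorm v.asIdeal : ℝ) ^ m)⁻¹ : ℝ) : ℂ) := by push_cast; ring
  rw [e, Complex.re_mul_ofReal]

theorem abs_th {v : HeightOneSpectrum (𝓞 K)} {Q : Ideal (𝓞 (AlgebraicClosure K))}
    {σ : Gal(AlgebraicClosure K/K)} {g : G} :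
    |th 𝒜 X d m N ρ v Q σ g| ≤ N := by
  classical
  unfold th
  have hq := norm_pos v
  have hqm : (0 : ℝ) < (Ideal.absNorm v.asIdeal : ℝ) ^ m := by positivity
  by_cases h : ∃ α, Has 𝒜 X d m N ρ v Q σ g α
  · have h1 := al_spec 𝒜 X d m N ρ h
    rw [abs_mul, abs_inv, abs_of_pos hqm, ← div_eq_mul_inv, div_le_iff₀ hqm]
    refine (Complex.abs_re_le_norm _).trans ((norm_sum_le _ _).trans ?_)
    rw [Finset.sum_congr rfl fun j _ => Has.nrm h1 j, Finset.sum_const, Finset.card_univ,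
      Fintype.card_fin, nsmul_eq_mul]
  · have e : al 𝒜 X d m N ρ v Q σ g = 0 := by
      unfold al
      rw [dif_neg h]
    rw [e]
    simp

/-- conjugation of the group element -/
theorem cv_conj (x y : G ⋊[𝒜.θ] Gal(AlgebraicClosure K/K)) :
    cv 𝒜 ρ (y * x * y⁻¹) = cv 𝒜 ρ x := by
  unfold cv
  have e : (y * x * y⁻¹)⁻¹ = y * x⁻¹ * y⁻¹ := by group
  rw [e, map_mul, LinearMap.trace_mul_comm, ← map_mul]
  congr 3
  group

theorem conj_left (g k : G) (σ : Gal(AlgebraicClosure K/K)) :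
    (⟨k * g * (𝒜.θ σ k)⁻¹, σ⟩ : G ⋊[𝒜.θ] Gal(AlgebraicClosure K/K)) =
      SemidirectProduct.inl k * ⟨g, σ⟩ * (SemidirectProduct.inl k)⁻¹ := by
  refine SemidirectProduct.ext ?_ ?_
  · simp [SemidirectProduct.mul_left, mul_assoc]
  · simp

/-- the trace on the complement is a twisted class function -/
theorem ff_conj (hmd : m ≤ d) {v : HeightOneSpectrum (𝓞 K)} {Q : Ideal (𝓞 (AlgebraicClosure K))}
    {σ : Gal(AlgebraicClosure K/K)} (hσ : IsFrobAt v Q σ) (hX : Pres 𝒜 X Q)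
    (h : ∀ g, ∃ α, Has 𝒜 X d m N ρ v Q σ g α) (g k : G) :
    ff 𝒜 X d m N ρ v Q σ (k * g * (𝒜.θ σ k)⁻¹) = ff 𝒜 X d m N ρ v Q σ g := by
  have h1 := al_spec 𝒜 X d m N ρ (h g)
  have h2 := al_spec 𝒜 X d m N ρ (h (k * g * (𝒜.θ σ k)⁻¹))
  have h3 := isEigen_conj hσ hX g k h1.1
  have h4 := IsEigen.sum_eq (by omega : 2 * m ≤ 2 * d) h2.1 h3
  unfold ff th
  rw [h4, conj_left, cv_conj]

end

end Pool.Agent.K7.H53.FM
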